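import Pool.Agent.MP_b80928_gt.D5.Defs

/-! Row AFF: the affine contact rescaling as a continuous linear equivalence. -/

set_option autoImplicit false

namespace Pool.Agent.MP_b80928_gt.D5

open Set Metric Filter Topology
open scoped ContDiff

/-- the linear part of the rescaling -/
noncomputable def aff_lin {n : ℕ} (P0 : Pt n) (t : ℝ) (ht : t ≠ 0) : Pt n ≃ₗ[ℝ] Pt n where
  toFun q := (t ^ 2 * q.1 + t * ∑ i, P0.2.2 i * q.2.1 i, t • q.2.1, t • q.2.2)
  invFun q := ((q.1 - ∑ i, P0.2.2 i * q.2.1 i) / t ^ 2, t⁻¹ • q.2.1, t⁻¹ • q.2.2)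
  map_add' a b := by
    refine Prod.ext ?_ (Prod.ext ?_ ?_)
    · simp only [Prod.fst_add, Prod.snd_add, Pi.add_apply, mul_add, Finset.sum_add_distrib]
      ring
    · simp only [Prod.fst_add, Prod.snd_add, smul_add]
    · simp only [Prod.snd_add, smul_add]
  map_smul' c a := by
    refine Prod.ext ?_ (Prod.ext ?_ ?_)
    · have h : ∑ i, P0.2.2 i * (c * a.2.1 i) = c * ∑ i, P0.2.2 i * a.2.1 i := by
        rw [Finset.mul_sum]
        exact Finset.sum_congr rfl fun i _ => by ring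
      simp only [Prod.smul_fst, Prod.smul_snd, Pi.smul_apply, smul_eq_mul, RingHom.id_apply]
      rw [h]
      ring
    · simp only [Prod.smul_fst, Prod.smul_snd, RingHom.id_apply]
      exact smul_comm _ _ _
    · simp only [Prod.smul_snd, RingHom.id_apply]
      exact smul_comm _ _ _
  left_inv q := by
    refine Prod.ext ?_ (Prod.ext ?_ ?_)
    · have h : ∑ i, P0.2.2 i * (t • q.2.1) i = t * ∑ i, P0.2.2 i * q.2.1 i := by
        rw [Finset.mul_sum]
        exact Finset.sum_congr rfl fun i _ => by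
          rw [Pi.smul_apply, smul_eq_mul]
          ring
      show (t ^ 2 * q.1 + t * ∑ i, P0.2.2 i * q.2.1 i - ∑ i, P0.2.2 i * (t • q.2.1) i) / t ^ 2
        = q.1
      rw [h]
      field_simp
      ring
    · show t⁻¹ • t • q.2.1 = q.2.1
      rw [smul_smul, inv_mul_cancel₀ ht, one_smul]
    · show t⁻¹ • t • q.2.2 = q.2.2
      rw [smul_smul, inv_mul_cancel₀ ht, one_smul]
  right_inv q := by
    refine Prod.ext ?_ (Prod.ext ?_ ?_)
    · have h : t * ∑ i, P0.2.2 i * (t⁻¹ • q.2.1) i = ∑ i, P0.2.2 i * q.2.1 i := by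
        rw [Finset.mul_sum]
        exact Finset.sum_congr rfl fun i _ => by
          rw [Pi.smul_apply, smul_eq_mul]
          field_simp
      show t ^ 2 * ((q.1 - ∑ i, P0.2.2 i * q.2.1 i) / t ^ 2)
        + t * ∑ i, P0.2.2 i * (t⁻¹ • q.2.1) i = q.1
      rw [h]
      field_simp
      ring
    · show t • t⁻¹ • q.2.1 = q.2.1
      rw [smul_smul, mul_inv_cancel₀ ht, one_smul]
    · show t • t⁻¹ • q.2.2 = q.2.2
      rw [smul_smul, mul_inv_cancel₀ ht, one_smul]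

theorem aff_row : AFF_s := by
  intro n P0
  have hS : 0 ≤ ∑ i, |P0.2.2 i| := Finset.sum_nonneg fun i _ => abs_nonneg _
  refine ⟨1 + ∑ i, |P0.2.2 i|, by linarith, fun t ht ht1 => ?_⟩
  refine ⟨(aff_lin P0 t ht.ne').toContinuousLinearEquiv, fun q => rfl, fun q => ?_⟩
  have hq : 0 ≤ ‖q‖ := norm_nonneg q
  have h1 : |q.1| ≤ ‖q‖ := by
    have := norm_fst_le q
    rwa [Real.norm_eq_abs] at this
  have h21 : ‖q.2.1‖ ≤ ‖q‖ := (norm_fst_le q.2).trans (norm_snd_le q)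
  have h22 : ‖q.2.2‖ ≤ ‖q‖ := (norm_snd_le q.2).trans (norm_snd_le q)
  have hsum : |∑ i, P0.2.2 i * q.2.1 i| ≤ (∑ i, |P0.2.2 i|) * ‖q‖ := by
    rw [Finset.sum_mul]
    refine (Finset.abs_sum_le_sum_abs _ _).trans (Finset.sum_le_sum fun i _ => ?_)
    rw [abs_mul]
    refine mul_le_mul_of_nonneg_left ?_ (abs_nonneg _)
    have := norm_le_pi_norm q.2.1 i
    rw [Real.norm_eq_abs] at this
    exact this.trans h21
  have htq : 0 ≤ t * ‖q‖ := mul_nonneg ht.le hq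
  have hbig : t * ‖q‖ ≤ (1 + ∑ i, |P0.2.2 i|) * t * ‖q‖ := by
    have := mul_nonneg hS htq
    nlinarith
  show ‖((t ^ 2 * q.1 + t * ∑ i, P0.2.2 i * q.2.1 i, t • q.2.1, t • q.2.2) : Pt n)‖ ≤ _
  refine norm_prod_le_iff.2 ⟨?_, norm_prod_le_iff.2 ⟨?_, ?_⟩⟩
  · show ‖t ^ 2 * q.1 + t * ∑ i, P0.2.2 i * q.2.1 i‖ ≤ _
    rw [Real.norm_eq_abs]
    refine (abs_add_le _ _).trans ?_
    rw [abs_mul, abs_mul, abs_of_pos ht, abs_of_pos (pow_pos ht 2)]
    have a1 : t ^ 2 * |q.1| ≤ t * ‖q‖ := by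
      have b1 : t ^ 2 ≤ t := by nlinarith
      exact mul_le_mul b1 h1 (abs_nonneg _) ht.le
    have a2 := mul_le_mul_of_nonneg_left hsum ht.le
    nlinarith
  · show ‖t • q.2.1‖ ≤ _
    rw [norm_smul, Real.norm_eq_abs, abs_of_pos ht]
    exact (mul_le_mul_of_nonneg_left h21 ht.le).trans hbig
  · show ‖t • q.2.2‖ ≤ _
    rw [norm_smul, Real.norm_eq_abs, abs_of_pos ht]
    exact (mul_le_mul_of_nonneg_left h22 ht.le).trans hbig

end Pool.Agent.MP_b80928_gt.D5
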