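import Pool.Agent.MP_b80928_gt.D5.Defs

set_option autoImplicit false

namespace Pool.Agent.MP_b80928_gt.D5

open Set Metric Filter Topology
open scoped ContDiff

theorem inv_row : INV_s := by
  intro n P Q hP hQ h
  refine ⟨hP, Function.LeftInverse.injective h, fun q => ?_⟩
  have h1 : fderiv ℝ (Q ∘ P) q = (fderiv ℝ Q (P q)).comp (fderiv ℝ P q) :=
    fderiv_comp q (hQ.differentiable (by simp) _) (hP.differentiable (by simp) _)
  have h2 : Q ∘ P = id := funext h
  rw [h2, fderiv_id] at h1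
  intro a b hab
  have ha := congrArg (fun T : Pt n →L[ℝ] Pt n => T a) h1
  have hb := congrArg (fun T : Pt n →L[ℝ] Pt n => T b) h1
  simp only [ContinuousLinearMap.id_apply, ContinuousLinearMap.comp_apply] at ha hb
  rw [ha, hb, hab]

theorem bas_comp {n : ℕ} {P Q : Pt n → Pt n} (hP : Amb P) (hQ : Amb Q) : Amb fun q => P (Q q) := by
  refine ⟨hP.1.comp hQ.1, hP.2.1.comp hQ.2.1, fun q => ?_⟩
  have h1 : fderiv ℝ (fun q => P (Q q)) q = (fderiv ℝ P (Q q)).comp (fderiv ℝ Q q) :=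
    fderiv_comp q (hP.1.differentiable (by simp) _) (hQ.1.differentiable (by simp) _)
  rw [h1]
  exact (hP.2.2 _).comp (hQ.2.2 _)

theorem comp_row : COMP_s := by
  intro n P Q M M' hP hQ
  refine ⟨hP.1.comp (contDiff_fst.prodMk hQ.1), fun q => (hP.2.1 _).trans (hQ.2.1 q),
    fun τ hτ => ?_⟩
  refine ⟨bas_comp (hP.2.2 τ hτ).1 (hQ.2.2 τ hτ).1, fun q => ?_⟩
  have e : P τ (Q τ q) - q = (P τ (Q τ q) - Q τ q) + (Q τ q - q) := by abel
  rw [e]
  exact (norm_add_le _ _).trans (add_le_add ((hP.2.2 τ hτ).2 _) ((hQ.2.2 τ hτ).2 _))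

theorem cji_row : CJI_s := by
  intro n Φ M hΦ P0 L c hc hL
  have s1 : ContDiff ℝ ∞ fun q : Pt n => L.symm (q - P0) :=
    L.symm.contDiff.comp (contDiff_id.sub contDiff_const)
  have s2 : ContDiff ℝ ∞ fun q : Pt n => P0 + L q := contDiff_const.add L.contDiff
  have a1 : Amb fun q : Pt n => L.symm (q - P0) :=
    inv_row n _ _ s1 s2 fun q => by simp
  have a2 : Amb fun q : Pt n => P0 + L q :=
    inv_row n _ _ s2 s1 fun q => by simp
  refine ⟨s2.comp (hΦ.1.comp (contDiff_fst.prodMk (s1.comp contDiff_snd))), fun q => ?_,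
    fun τ hτ => ⟨?_, fun q => ?_⟩⟩
  · change P0 + L (Φ 0 (L.symm (q - P0))) = q
    rw [hΦ.2.1]; simp
  · have a3 := bas_comp (hΦ.2.2 τ hτ).1 a1
    have a4 := bas_comp a2 a3
    exact a4
  · have e : P0 + L (Φ τ (L.symm (q - P0))) - q =
        L (Φ τ (L.symm (q - P0)) - L.symm (q - P0)) := by
      rw [map_sub L, L.apply_symm_apply]; abel
    change ‖P0 + L (Φ τ (L.symm (q - P0))) - q‖ ≤ c * M
    rw [e]
    exact (hL _).trans (mul_le_mul_of_nonneg_left ((hΦ.2.2 τ hτ).2 _) hc)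

theorem sh_row : SH_s := by
  intro n f M hf hM
  have s1 : ∀ τ : ℝ, ContDiff ℝ ∞ fun q : Pt n => ((q.1 + τ * f q.2, q.2) : Pt n) := fun τ =>
    (contDiff_fst.add (contDiff_const.mul (hf.comp contDiff_snd))).prodMk contDiff_snd
  refine ⟨?_, fun q => by simp, fun τ hτ => ⟨inv_row n _ _ (s1 τ) (s1 (-τ)) fun q => ?_, fun q => ?_⟩⟩
  · exact ((contDiff_fst.comp contDiff_snd).add
      (contDiff_fst.mul (hf.comp (contDiff_snd.comp contDiff_snd)))).prodMk
      (contDiff_snd.comp contDiff_snd)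
  · refine Prod.ext ?_ rfl
    change q.1 + τ * f q.2 + -τ * f q.2 = q.1
    ring
  · have e : ((q.1 + τ * f q.2, q.2) : Pt n) - q = (τ * f q.2, 0) :=
      Prod.ext (by simp) (by simp)
    have h0 : 0 ≤ M := (abs_nonneg _).trans (hM q.2)
    rw [e, Prod.norm_def, norm_zero, Real.norm_eq_abs, abs_mul, abs_of_nonneg hτ.1]
    refine max_le ?_ h0
    calc τ * |f q.2| ≤ 1 * M := mul_le_mul hτ.2 (hM _) (abs_nonneg _) zero_le_one
      _ = M := one_mul M

end Pool.Agent.MP_b80928_gt.D5
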