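import Pool.Agent.MP_b80928_gt.D5.Defs

set_option autoImplicit false

namespace Pool.Agent.MP_b80928_gt.D5

open Set Metric Filter Topology
open scoped ContDiff

lemma by_line {n : ℕ} {f : V n → ℝ} (hf : Differentiable ℝ f) (w v : V n) :
    HasDerivAt (fun t : ℝ => f (w + t • v)) (fderiv ℝ f w v) 0 := by
  have h1 : HasDerivAt (fun t : ℝ => w + t • v) v 0 := by
    simpa using ((hasDerivAt_id (0 : ℝ)).smul_const v).const_add w
  have h2 : HasFDerivAt f (fderiv ℝ f w) (w + (0 : ℝ) • v) := by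
    simpa using (hf w).hasFDerivAt
  exact h2.comp_hasDerivAt (0 : ℝ) h1

lemma by_pos {σ h : ℝ} (h1 : |σ| ≤ 1) (h2 : σ ^ 2 < 1 → 0 < h) :
    0 < h * Real.sin (Real.pi * (1 - σ) / 2) + σ * 1 * Real.cos (Real.pi * (1 - σ) / 2) := by
  have hp := Real.pi_pos
  obtain ⟨ha, hb⟩ := abs_le.1 h1
  rcases ha.eq_or_lt with e | ha'
  · rw [← e, show Real.pi * (1 - -1) / 2 = Real.pi by ring, Real.sin_pi, Real.cos_pi]
    norm_num
  rcases hb.eq_or_lt with e | hb'
  · rw [e, show Real.pi * (1 - 1) / 2 = 0 by ring, Real.sin_zero, Real.cos_zero]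
    norm_num
  have h3 := h2 (by nlinarith)
  have h4 : 0 < Real.sin (Real.pi * (1 - σ) / 2) :=
    Real.sin_pos_of_pos_of_lt_pi (by nlinarith) (by nlinarith)
  have h5 : 0 ≤ σ * Real.cos (Real.pi * (1 - σ) / 2) := by
    rcases le_total 0 σ with h | h
    · exact mul_nonneg h
        (Real.cos_nonneg_of_neg_pi_div_two_le_of_le (by nlinarith) (by nlinarith))
    · exact mul_nonneg_of_nonpos_of_nonpos h
        (Real.cos_nonpos_of_pi_div_two_le_of_le (by nlinarith) (by nlinarith))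
  have h6 := mul_pos h3 h4
  linarith

theorem by_row : BY_s := by
  intro m κ w
  have hH := Hm_smooth (m := m) κ
  have hs : ContDiff ℝ ∞ fun w : V (m+2) => s (w.1 0) := s_smooth.comp (by fun_prop)
  have hy : ContDiff ℝ ∞ fun w : V (m+2) => w.2 0 := by fun_prop
  have ht : ContDiff ℝ ∞ fun w : V (m+2) => Real.pi * (1 - s (w.1 0)) / 2 :=
    (contDiff_const.mul (contDiff_const.sub hs)).div_const 2
  have hb : ContDiff ℝ ∞ fun w : V (m+2) =>
      Hm κ w * Real.sin (Real.pi * (1 - s (w.1 0)) / 2) +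
        s (w.1 0) * w.2 0 * Real.cos (Real.pi * (1 - s (w.1 0)) / 2) :=
    (hH.mul ht.sin).add ((hs.mul hy).mul ht.cos)
  have h1 := by_line (hb.differentiable (by simp)) w (ey 0)
  have h2 := by_line (hH.differentiable (by simp)) w (ey 0)
  have h3 : HasDerivAt (fun t : ℝ => w.2 0 + t) 1 0 := (hasDerivAt_id (0 : ℝ)).const_add _
  have h4 := (h2.mul_const (Real.sin (Real.pi * (1 - s (w.1 0)) / 2))).add
    ((h3.const_mul (s (w.1 0))).mul_const (Real.cos (Real.pi * (1 - s (w.1 0)) / 2)))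
  have e1 : ∀ t : ℝ, (w + t • (ey 0 : V (m+2))).1 0 = w.1 0 := fun t => by simp [ey]
  have e2 : ∀ t : ℝ, (w + t • (ey 0 : V (m+2))).2 0 = w.2 0 + t := fun t => by simp [ey]
  simp only [e1, e2] at h1
  rw [h1.unique h4]
  exact by_pos (s_abs_le _) (main_Hy κ w)

end Pool.Agent.MP_b80928_gt.D5
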