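import Pool.Agent.MP_b80928_gt.D5.Defs

/-! Row CNJ: the affine rescaling pulls contact fields back to contact fields. -/

set_option autoImplicit false

namespace Pool.Agent.MP_b80928_gt.D5

open Set Metric Filter Topology
open scoped ContDiff

theorem cnj_fd {n : ℕ} (p w a : Pt n) :
    fderiv ℝ (fun q : Pt n => alpha q w) p a = -∑ i, a.2.2 i * w.2.1 i := by
  let L : Pt n →L[ℝ] ℝ := ∑ i, (w.2.1 i) • ((ContinuousLinearMap.proj i).comp
    ((ContinuousLinearMap.snd ℝ (Fin n → ℝ) (Fin n → ℝ)).comp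
      (ContinuousLinearMap.snd ℝ ℝ ((Fin n → ℝ) × (Fin n → ℝ)))))
  have hL : ∀ q : Pt n, L q = ∑ i, q.2.2 i * w.2.1 i := by
    intro q
    simp only [L, sum_apply, smul_apply,
      ContinuousLinearMap.comp_apply, ContinuousLinearMap.coe_snd', ContinuousLinearMap.proj_apply,
      smul_eq_mul]
    exact Finset.sum_congr rfl fun i _ => mul_comm _ _
  have he : (fun q : Pt n => alpha q w) = fun q => w.1 - L q := by
    funext q
    rw [hL]
    rfl
  rw [he, (L.hasFDerivAt.const_sub w.1).fderiv, neg_apply, hL]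

theorem cnj_alpha {n : ℕ} (P0 : Pt n) (t : ℝ) (L : Pt n ≃L[ℝ] Pt n)
    (hL : ∀ q, L q = (t ^ 2 * q.1 + t * ∑ i, P0.2.2 i * q.2.1 i, t • q.2.1, t • q.2.2))
    (p w : Pt n) : alpha (P0 + L p) (L w) = t ^ 2 * alpha p w := by
  have h : ∑ i, (P0 + L p).2.2 i * (L w).2.1 i
      = t * ∑ i, P0.2.2 i * w.2.1 i + t ^ 2 * ∑ i, p.2.2 i * w.2.1 i := by
    rw [Finset.mul_sum, Finset.mul_sum, ← Finset.sum_add_distrib]
    refine Finset.sum_congr rfl fun i _ => ?_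
    rw [hL p, hL w]
    simp only [Prod.snd_add, Pi.add_apply, Pi.smul_apply, smul_eq_mul]
    ring
  have h1 : (L w).1 = t ^ 2 * w.1 + t * ∑ i, P0.2.2 i * w.2.1 i := by rw [hL w]
  unfold alpha
  rw [h, h1]
  ring

theorem cnj_sum {n : ℕ} (P0 : Pt n) (t : ℝ) (L : Pt n ≃L[ℝ] Pt n)
    (hL : ∀ q, L q = (t ^ 2 * q.1 + t * ∑ i, P0.2.2 i * q.2.1 i, t • q.2.1, t • q.2.2))
    (u w : Pt n) :
    ∑ i, (L u).2.2 i * (L w).2.1 i = t ^ 2 * ∑ i, u.2.2 i * w.2.1 i := by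
  rw [Finset.mul_sum]
  refine Finset.sum_congr rfl fun i _ => ?_
  rw [hL u, hL w]
  simp only [Pi.smul_apply, smul_eq_mul]
  ring

theorem cnj_row : CNJ_s := by
  intro n P0 t ht L hL v U hU hv
  have key : ∀ p : Pt n, P0 + L p ∈ U →
      HasFDerivAt (fun q => L.symm (v (P0 + L q)))
        ((L.symm : Pt n →L[ℝ] Pt n).comp
          ((fderiv ℝ v (P0 + L p)).comp (L : Pt n →L[ℝ] Pt n))) p := by
    intro p hp
    have h1 : HasFDerivAt v (fderiv ℝ v (P0 + L p)) (P0 + L p) :=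
      (hv.1.differentiableAt (hU.mem_nhds hp)).hasFDerivAt
    have h2 : HasFDerivAt (fun q => P0 + L q) (L : Pt n →L[ℝ] Pt n) p :=
      L.hasFDerivAt.const_add P0
    exact L.symm.hasFDerivAt.comp p (h1.comp p h2)
  refine ⟨fun p hp => (key p hp).differentiableAt.differentiableWithinAt, fun p hp w hw => ?_⟩
  have hw' : alpha (P0 + L p) (L w) = 0 := by rw [cnj_alpha P0 t L hL, hw, mul_zero]
  have h := hv.2 (P0 + L p) hp (L w) hw'
  rw [cnj_fd] at h
  rw [cnj_fd, (key p hp).fderiv]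
  have e1 := cnj_sum P0 t L hL (L.symm (v (P0 + L p))) w
  have e2 := cnj_alpha P0 t L hL p (L.symm (fderiv ℝ v (P0 + L p) (L w)))
  rw [L.apply_symm_apply] at e1 e2
  rw [e1, e2] at h
  have ht2 : t ^ 2 ≠ 0 := (pow_pos ht 2).ne'
  refine mul_left_cancel₀ ht2 ?_
  rw [mul_zero, ← h, mul_add, mul_neg]
  rfl

end Pool.Agent.MP_b80928_gt.D5
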