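import Pool.Agent.MP_b80928_gt.D5.Defs

set_option autoImplicit false

namespace Pool.Agent.MP_b80928_gt.D5

open Set Metric Filter Topology
open scoped ContDiff

-- BEGIN
theorem cut_row : CUT_s := by
  intro n f w0 r M hr hf
  let b : ContDiffBump w0 := ⟨r / 2, 3 * r / 4, by linarith, by linarith⟩
  have hin : b.rIn = r / 2 := rfl
  have hout : b.rOut = 3 * r / 4 := rfl
  have hM : 0 ≤ M := (abs_nonneg _).trans (hf w0 (mem_ball_self hr)).2
  have hb : ContDiff ℝ ∞ (fun w => b w) := b.contDiff
  refine ⟨fun w => b w * f w, ?_, ?_, ?_⟩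
  · rw [contDiff_iff_contDiffAt]
    intro w
    by_cases hw : w ∈ ball w0 r
    · exact hb.contDiffAt.mul (hf w hw).1
    · have h1 : 3 * r / 4 < dist w w0 := by
        have h2 : r ≤ dist w w0 := not_lt.1 fun h => hw (mem_ball.2 h)
        linarith
      have h3 : ∀ᶠ u in 𝓝 w, 3 * r / 4 < dist u w0 :=
        (continuous_id.dist continuous_const).continuousAt.eventually (lt_mem_nhds h1)
      have h4 : (fun u => b u * f u) =ᶠ[𝓝 w] fun _ => (0 : ℝ) := by
        filter_upwards [h3] with u hu
        rw [b.zero_of_le_dist (by rw [hout]; exact hu.le), zero_mul]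
      exact contDiffAt_const.congr_of_eventuallyEq h4
  · intro w
    by_cases hw : w ∈ ball w0 r
    · have h1 : |b w| ≤ 1 := by
        rw [abs_of_nonneg b.nonneg]; exact b.le_one
      calc |b w * f w| = |b w| * |f w| := abs_mul _ _
        _ ≤ 1 * M := mul_le_mul h1 (hf w hw).2 (abs_nonneg _) zero_le_one
        _ = M := one_mul M
    · have h2 : r ≤ dist w w0 := not_lt.1 fun h => hw (mem_ball.2 h)
      have h3 : b w = 0 := b.zero_of_le_dist (by rw [hout]; linarith)
      show |b w * f w| ≤ M
      rw [h3, zero_mul, abs_zero]; exact hM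
  · intro w hw
    have h1 : b w = 1 := b.one_of_mem_closedBall (by rw [hin]; exact ball_subset_closedBall hw)
    show b w * f w = f w
    rw [h1, one_mul]

end Pool.Agent.MP_b80928_gt.D5

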