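import Pool.Agent.MP_b80928_gt.Asm

/-! Density of robustly non-convex spheres: the statements of the steps. -/

set_option autoImplicit false

namespace Pool.Agent.MP_b80928_gt.D5

open Set Metric Filter Topology
open scoped ContDiff

/-- a smooth injective immersion of the ambient space -/
def Amb {n : ℕ} (P : Pt n → Pt n) : Prop :=
  ContDiff ℝ ∞ P ∧ Function.Injective P ∧ ∀ q, Function.Injective (fderiv ℝ P q)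

/-- a smooth isotopy from the identity through injective immersions, moving points by `≤ M` -/
def Iso {n : ℕ} (P : ℝ → Pt n → Pt n) (M : ℝ) : Prop :=
  ContDiff ℝ ∞ (fun x : ℝ × Pt n => P x.1 x.2) ∧ (∀ q, P 0 q = q) ∧
    ∀ τ ∈ Icc (0 : ℝ) 1, Amb (P τ) ∧ ∀ q, ‖P τ q - q‖ ≤ M

/-- the affine map `q ↦ P0 + L q` pulls contact fields back to contact fields -/
def Conj {n : ℕ} (P0 : Pt n) (L : Pt n ≃L[ℝ] Pt n) : Prop :=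
  ∀ (v : Pt n → Pt n) (U : Set (Pt n)), IsOpen U → IsContactOn v U →
    IsContactOn (fun q => L.symm (v (P0 + L q))) {q | P0 + L q ∈ U}

/-- the local obstruction near the model piece `F` -/
def Loc {n : ℕ} (F : V n → Pt n) : Prop :=
  ∃ ε > 0, ∀ F' : V n → Pt n,
    (∀ z ∈ closedBall (0 : V n) 14, ContDiffAt ℝ 2 F' z ∧ Function.Injective (fderiv ℝ F' z) ∧
      ‖F' z - F z‖ ≤ ε ∧ ‖fderiv ℝ F' z - fderiv ℝ F z‖ ≤ ε) →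
    ∀ U, IsOpen U → (∀ z ∈ closedBall (0 : V n) 14, F' z ∈ U) → ∀ v, IsContactOn v U →
      ∃ z ∈ closedBall (0 : V n) 14, ∃ w, fderiv ℝ F' z w = v (F' z)

/-- `ch` is a chart of the sphere on the set `B` -/
def Chart {n : ℕ} (ch : V n → Pt n) (B : Set (V n)) : Prop :=
  ∀ z ∈ B, ContDiffAt ℝ ∞ ch z ∧ ch z ∈ sph n ∧ (∀ w, dot (ch z) (fderiv ℝ ch z w) = 0) ∧
    Function.Injective (fderiv ℝ ch z)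

/-- `E` has a `C^1`-neighbourhood without convex spheres -/
def Robust {n : ℕ} (E : Pt n → Pt n) : Prop :=
  ∃ ε > 0, ∀ E' : Pt n → Pt n, ContDiff ℝ 2 E' → IsEmb E' →
    (∀ p ∈ sph n, ‖E' p - E p‖ ≤ ε ∧
      ∀ w, dot p w = 0 → ‖fderiv ℝ E' p w - fderiv ℝ E p w‖ ≤ ε * ‖w‖) → ¬IsConvex E'

def LOC_s : Prop := ∀ m : ℕ, ∃ κ : ℝ, Loc (Fm (Hm (m := m) κ) s)

def COMP_s : Prop := ∀ (n : ℕ) (P Q : ℝ → Pt n → Pt n) (M M' : ℝ), Iso P M → Iso Q M' →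
  Iso (fun τ q => P τ (Q τ q)) (M + M')

def CJI_s : Prop := ∀ (n : ℕ) (Φ : ℝ → Pt n → Pt n) (M : ℝ), Iso Φ M →
  ∀ (P0 : Pt n) (L : Pt n ≃L[ℝ] Pt n) (c : ℝ), 0 ≤ c → (∀ q, ‖L q‖ ≤ c * ‖q‖) →
  Iso (fun τ q => P0 + L (Φ τ (L.symm (q - P0)))) (c * M)

def INV_s : Prop := ∀ (n : ℕ) (P Q : Pt n → Pt n), ContDiff ℝ ∞ P → ContDiff ℝ ∞ Q →
  (∀ q, Q (P q) = q) → Amb P

def SH_s : Prop := ∀ (n : ℕ) (f : V n → ℝ) (M : ℝ), ContDiff ℝ ∞ f → (∀ w, |f w| ≤ M) →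
  Iso (fun τ (q : Pt n) => ((q.1 + τ * f q.2, q.2) : Pt n)) M

def CUT_s : Prop := ∀ (n : ℕ) (f : V n → ℝ) (w0 : V n) (r M : ℝ), 0 < r →
  (∀ w ∈ ball w0 r, ContDiffAt ℝ ∞ f w ∧ |f w| ≤ M) →
  ∃ g : V n → ℝ, ContDiff ℝ ∞ g ∧ (∀ w, |g w| ≤ M) ∧ ∀ w ∈ ball w0 (r / 2), g w = f w

def RE_s : Prop := ∀ (k : ℕ) (b : V (k+1) → ℝ), ContDiff ℝ ∞ b →
  (∀ w, 0 < fderiv ℝ b w (ey 0)) →
  ∃ (P : ℝ → Pt (k+1) → Pt (k+1)) (M : ℝ), Iso P M ∧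
    ∀ (z : ℝ), ∀ w ∈ ball (0 : V (k+1)) 15, P 1 (z, w) = (z, w.1, Function.update w.2 0 (b w))

def TW_s : Prop := ∀ (k : ℕ) (θ : ℝ → ℝ), ContDiff ℝ ∞ θ → ∀ R : ℝ,
  ∃ (P : ℝ → Pt (k+1) → Pt (k+1)) (M : ℝ), Iso P M ∧
    ∀ q : Pt (k+1), |q.1| ≤ R → |q.2.2 0| ≤ R →
      P 1 q = (q.1 * Real.cos (θ (q.2.1 0)) + q.2.2 0 * Real.sin (θ (q.2.1 0)), q.2.1,
        Function.update q.2.2 0
          (-q.1 * Real.sin (θ (q.2.1 0)) + q.2.2 0 * Real.cos (θ (q.2.1 0))))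

def BY_s : Prop := ∀ (m : ℕ) (κ : ℝ) (w : V (m+2)),
  0 < fderiv ℝ (fun w : V (m+2) => Hm κ w * Real.sin (Real.pi * (1 - s (w.1 0)) / 2) +
    s (w.1 0) * w.2 0 * Real.cos (Real.pi * (1 - s (w.1 0)) / 2)) w (ey 0)

def PLUG_s : Prop := ∀ (m : ℕ) (κ : ℝ), ∃ (Φ : ℝ → Pt (m+2) → Pt (m+2)) (M : ℝ), Iso Φ M ∧
  ∀ w ∈ ball (0 : V (m+2)) 15, Φ 1 (0, w) = Fm (Hm κ) s w

def MAXP_s : Prop := ∀ (n : ℕ) (E0 : Pt n → Pt n), ContDiff ℝ ∞ E0 →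
  ∃ p ∈ sph n, ∀ w, dot p w = 0 → (fderiv ℝ E0 p w).1 = 0

def IFT_s : Prop := ∀ (n : ℕ) (E0 : Pt n → Pt n), ContDiff ℝ ∞ E0 → ∀ p ∈ sph n,
  (∀ w, dot p w = 0 → (fderiv ℝ E0 p w).2 = 0 → w = 0) →
  ∃ r > 0, ∃ κ : V n → Pt n, ∀ w ∈ ball (E0 p).2 r,
    ContDiffAt ℝ ∞ κ w ∧ κ w ∈ sph n ∧ (E0 (κ w)).2 = w

def TAN_s : Prop := ∀ (n : ℕ) (E0 : Pt n → Pt n), ContDiff ℝ ∞ E0 →
  ∀ (κ : V n → Pt n) (w0 : V n) (r t : ℝ), 0 < t → 15 * t ≤ r →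
  (∀ w ∈ ball w0 r, ContDiffAt ℝ ∞ κ w ∧ κ w ∈ sph n ∧ (E0 (κ w)).2 = w) →
  Chart (fun z => κ (w0 + t • z)) (ball 0 15)

def FLAT_s : Prop := ∀ (n : ℕ) (E0 : Pt n → Pt n), ContDiff ℝ ∞ E0 → IsEmb E0 → ∀ δ > 0,
  ∃ T : ℝ → Pt n → Pt n, Iso T δ ∧ ∃ (P0 : Pt n) (r : ℝ) (κ : V n → Pt n),
    0 < r ∧ ∀ w ∈ ball P0.2 r, (ContDiffAt ℝ ∞ κ w ∧ κ w ∈ sph n ∧ (E0 (κ w)).2 = w) ∧
      T 1 (E0 (κ w)) = (P0.1 + ∑ i, P0.2.2 i * (w.1 i - P0.2.1 i), w)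

def AFF_s : Prop := ∀ (n : ℕ) (P0 : Pt n), ∃ C > 0, ∀ t : ℝ, 0 < t → t ≤ 1 →
  ∃ L : Pt n ≃L[ℝ] Pt n,
    (∀ q, L q = (t ^ 2 * q.1 + t * ∑ i, P0.2.2 i * q.2.1 i, t • q.2.1, t • q.2.2)) ∧
    (∀ q, ‖L q‖ ≤ C * t * ‖q‖)

def CNJ_s : Prop := ∀ (n : ℕ) (P0 : Pt n) (t : ℝ), 0 < t → ∀ L : Pt n ≃L[ℝ] Pt n,
  (∀ q, L q = (t ^ 2 * q.1 + t * ∑ i, P0.2.2 i * q.2.1 i, t • q.2.1, t • q.2.2)) → Conj P0 L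

def GEO_s : Prop := ∀ (m : ℕ) (κ : ℝ) (E0 : Pt (m+2) → Pt (m+2)), ContDiff ℝ ∞ E0 → IsEmb E0 →
  ∀ δ > 0, ∃ P : ℝ → Pt (m+2) → Pt (m+2), Iso P δ ∧
    ∃ (P0 : Pt (m+2)) (L : Pt (m+2) ≃L[ℝ] Pt (m+2)) (ch : V (m+2) → Pt (m+2)), Conj P0 L ∧
      Chart ch (ball 0 15) ∧ ∀ z ∈ ball (0 : V (m+2)) 15, P 1 (E0 (ch z)) = P0 + L (Fm (Hm κ) s z)

def ROB_s : Prop := ∀ (n : ℕ) (F : V n → Pt n), ContDiff ℝ ∞ F → Loc F →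
  ∀ (E : Pt n → Pt n), ContDiff ℝ ∞ E → ∀ (P0 : Pt n) (L : Pt n ≃L[ℝ] Pt n) (ch : V n → Pt n),
    Conj P0 L → Chart ch (ball 0 15) → (∀ z ∈ ball (0 : V n) 15, E (ch z) = P0 + L (F z)) →
    Robust E

def TOP_s : Prop := ∀ (m : ℕ) (E0 : Pt (m+2) → Pt (m+2)), ContDiff ℝ ∞ E0 → IsEmb E0 →
  ∀ δ > 0, ∃ P : ℝ → Pt (m+2) → Pt (m+2), Iso P δ ∧ Robust fun p => P 1 (E0 p)

end Pool.Agent.MP_b80928_gt.D5
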