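import Pool.Agent.Results.MP_b80928_gt.C1Robust

set_option autoImplicit false

namespace Pool.Agent.MP_b80928_gt.D5

open Pool.Agent.MP_b80928_gt
open scoped ContDiff

theorem ear_fd {n : ℕ} (p w : Pt n) :
    fderiv ℝ (fun q : Pt n => dot q q - 1) p w = 0 ↔ dot p w = 0 := by
  rw [fderiv_sub_const, ift_dot_deriv]
  constructor <;> intro h <;> linarith only [h]

theorem ear_hyp (n : ℕ) : Hyp fun q : Pt n => dot q q - 1 := by
  refine ⟨ift_dot_smooth.sub contDiff_const, ?_, ⟨(1, 0, 0), by simp [dot]⟩, fun p hp h => ?_⟩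
  · have h : {p : Pt n | dot p p - 1 = 0} = sph n := Set.ext fun p => sub_eq_zero
    rw [h]
    exact maxp_compact n
  · have h1 : dot p p = 0 := (ear_fd p p).1 (by rw [h]; rfl)
    linarith only [h1, hp]

theorem ear_emb {n : ℕ} {k : WithTop ℕ∞} {E : Pt n → Pt n} (h : SphereEmb dot k E) :
    HypEmb (fun q : Pt n => dot q q - 1) k E :=
  ⟨h.1, fun _ ha _ hb => h.2.1 (sub_eq_zero.1 ha) (sub_eq_zero.1 hb),
    fun p hp w hw => h.2.2 p (sub_eq_zero.1 hp) w ((ear_fd p w).1 hw)⟩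

/-- The form for spheres follows from the present hand-in. -/
theorem sphere_form (n : ℕ) (hn : 2 ≤ n) (E₀ : Pt n → Pt n) (h₀ : SphereEmb dot ∞ E₀)
    (δ : ℝ) (hδ : 0 < δ) :
    ∃ P : ℝ → Pt n → Pt n, ContDiff ℝ ∞ (fun x : ℝ × Pt n => P x.1 x.2) ∧ (∀ q, P 0 q = q) ∧
      (∀ τ ∈ Set.Icc (0 : ℝ) 1, Function.Injective (P τ) ∧
        (∀ q, Function.Injective (fderiv ℝ (P τ) q)) ∧ ∀ q, ‖P τ q - q‖ ≤ δ) ∧
      ∃ ε > 0, ∀ E' : Pt n → Pt n, SphereEmb dot 2 E' → C1Close dot ε E' (P 1 ∘ E₀) →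
        ¬ConvexImage alpha dot E' := by
  obtain ⟨P, ⟨h1, h2, h3⟩, ε, hε, h⟩ :=
    Pool.Agent.Results.MP_b80928_gt.C1Robust.result n hn _ (ear_hyp n) E₀ (ear_emb h₀) δ hδ
  refine ⟨P, h1, h2, h3, ε, hε, fun E' hE' hc ⟨U, hU, hEU, v, hv, ht⟩ => ?_⟩
  exact h E' (ear_emb hE')
    (fun p hp => ⟨(hc p (sub_eq_zero.1 hp)).1,
      fun w hw => (hc p (sub_eq_zero.1 hp)).2 w ((ear_fd p w).1 hw)⟩)
    ⟨U, hU, fun p hp => hEU p (sub_eq_zero.1 hp), v, hv,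
      fun p hp w hw => ht p (sub_eq_zero.1 hp) w ((ear_fd p w).1 hw)⟩

/-- The earliest form of the hand-in follows from the present one. -/
theorem earlier_form (n : ℕ) (hn : 2 ≤ n) :
    ∃ E : Pt n → Pt n, SphereEmb dot ∞ E ∧ ∃ ε > 0,
      ∀ E' : Pt n → Pt n, SphereEmb dot 2 E' → C1Close dot ε E' E → ¬ConvexImage alpha dot E' := by
  have h0 : SphereEmb dot ∞ (id : Pt n → Pt n) :=
    ⟨contDiff_id, fun _ _ _ _ h => h, fun p _ w _ h => by simpa using h⟩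
  obtain ⟨P, h1, -, h3, h⟩ := sphere_form n hn id h0 1 one_pos
  obtain ⟨g1, g2, -⟩ := h3 1 ⟨zero_le_one, le_rfl⟩
  refine ⟨P 1, ⟨h1.comp (contDiff_const.prodMk contDiff_id), g1.injOn, fun p _ w _ hw => ?_⟩, h⟩
  exact g2 p (by rw [hw, map_zero])

end Pool.Agent.MP_b80928_gt.D5
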