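import Pool.Agent.MP_b80928_gt.D5.Defs

set_option autoImplicit false

namespace Pool.Agent.MP_b80928_gt.D5

open Set Metric Filter Topology
open scoped ContDiff

-- BEGIN
theorem flat_row (hMAXP : MAXP_s) (hIFT : IFT_s) (hCUT : CUT_s) (hSH : SH_s) : FLAT_s := by
  intro n E0 hE0 hemb δ hδ
  obtain ⟨p, hp, hmax⟩ := hMAXP n E0 hE0
  obtain ⟨r, hr, κ, hκ⟩ := hIFT n E0 hE0 p hp fun w hw h2 =>
    hemb.2 p hp w hw (Prod.ext (hmax w hw) h2)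
  obtain ⟨w0, hw0⟩ : ∃ w0 : V n, w0 = (E0 p).2 := ⟨_, rfl⟩
  rw [← hw0] at hκ
  obtain ⟨P0, hP0⟩ : ∃ P0 : Pt n, P0 = E0 (κ w0) := ⟨_, rfl⟩
  have h0 : P0.2 = w0 := by rw [hP0]; exact (hκ w0 (mem_ball_self hr)).2.2
  obtain ⟨f, hfd⟩ : ∃ f : V n → ℝ,
      f = fun w => P0.1 + ∑ i, P0.2.2 i * (w.1 i - P0.2.1 i) - (E0 (κ w)).1 := ⟨_, rfl⟩
  have hlin : ContDiff ℝ ∞ fun w : V n => P0.1 + ∑ i, P0.2.2 i * (w.1 i - P0.2.1 i) := by
    refine contDiff_const.add (ContDiff.sum fun i _ => contDiff_const.mul (ContDiff.sub ?_ contDiff_const))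
    exact (contDiff_apply ℝ ℝ i).comp contDiff_fst
  have hfs : ∀ w ∈ ball w0 r, ContDiffAt ℝ ∞ f w := by
    intro w hw
    rw [hfd]
    exact hlin.contDiffAt.sub (hE0.contDiffAt.comp w (hκ w hw).1).fst
  have hf0 : f w0 = 0 := by
    rw [hfd]
    show P0.1 + ∑ i, P0.2.2 i * (w0.1 i - P0.2.1 i) - (E0 (κ w0)).1 = 0
    rw [← hP0, ← h0]
    simp
  obtain ⟨r1, hr1, hsm⟩ := Metric.continuousAt_iff.1 (hfs w0 (mem_ball_self hr)).continuousAt δ hδ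
  have hr2 : 0 < min r r1 := lt_min hr hr1
  obtain ⟨g, hg, hgb, hgf⟩ := hCUT n f w0 (min r r1) δ hr2 fun w hw =>
    ⟨hfs w (ball_subset_ball (min_le_left _ _) hw), by
      have h1 := hsm (mem_ball.1 (ball_subset_ball (min_le_right _ _) hw))
      rw [hf0, Real.dist_eq, sub_zero] at h1
      exact h1.le⟩
  refine ⟨fun τ (q : Pt n) => ((q.1 + τ * g q.2, q.2) : Pt n), hSH n g δ hg hgb, P0,
    min r r1 / 2, κ, half_pos hr2, fun w hw => ?_⟩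
  rw [h0] at hw
  have hw1 : w ∈ ball w0 r :=
    ball_subset_ball ((half_le_self hr2.le).trans (min_le_left _ _)) hw
  refine ⟨hκ w hw1, ?_⟩
  have h2 : (E0 (κ w)).2 = w := (hκ w hw1).2.2
  show (((E0 (κ w)).1 + 1 * g (E0 (κ w)).2, (E0 (κ w)).2) : Pt n) = _
  rw [h2, hgf w hw, hfd]
  refine Prod.ext ?_ rfl
  show (E0 (κ w)).1 + 1 * (P0.1 + ∑ i, P0.2.2 i * (w.1 i - P0.2.1 i) - (E0 (κ w)).1) = _
  ring

end Pool.Agent.MP_b80928_gt.D5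

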