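import Pool.Agent.MP_b80928_gt.D5.Defs

set_option autoImplicit false

namespace Pool.Agent.MP_b80928_gt.D5

open Set Metric Filter Topology
open scoped ContDiff

theorem geo_row (hC : COMP_s) (hJ : CJI_s) (hP : PLUG_s) (hT : TAN_s) (hF : FLAT_s) (hA : AFF_s)
    (hN : CNJ_s) : GEO_s := by
  intro m κ E0 hE0 hEe δ hδ
  obtain ⟨T, hTi, P0, r, k, hr, hk⟩ := hF (m+2) E0 hE0 hEe (δ / 2) (half_pos hδ)
  obtain ⟨Φ, M, hΦ, hΦ1⟩ := hP m κ
  obtain ⟨C, hCp, hAff⟩ := hA (m+2) P0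
  have hM : 0 ≤ M := (norm_nonneg _).trans ((hΦ.2.2 0 ⟨le_rfl, zero_le_one⟩).2 0)
  have hD : 0 < C * (M + 1) := mul_pos hCp (by linarith only [hM])
  obtain ⟨t, ht0, ht1, htr, htd⟩ : ∃ t : ℝ, 0 < t ∧ t ≤ 1 ∧ 15 * t ≤ r ∧ C * t * M ≤ δ / 2 := by
    refine ⟨min 1 (min (r / 15) (δ / 2 / (C * (M + 1)))), ?_, min_le_left _ _, ?_, ?_⟩
    · exact lt_min one_pos (lt_min (by positivity) (by positivity))
    · have := (min_le_right 1 _).trans (min_le_left (r / 15) (δ / 2 / (C * (M + 1))))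
      linarith only [this]
    · have h1 := (min_le_right 1 _).trans (min_le_right (r / 15) (δ / 2 / (C * (M + 1))))
      have h2 : 0 < min 1 (min (r / 15) (δ / 2 / (C * (M + 1)))) :=
        lt_min one_pos (lt_min (by positivity) (by positivity))
      rw [le_div_iff₀ hD] at h1
      have h3 := mul_pos hCp h2
      nlinarith only [h1, h3]
  obtain ⟨L, hL, hLn⟩ := hAff t ht0 ht1
  have hI := hC (m+2) _ _ _ _ (hJ (m+2) Φ M hΦ P0 L (C * t) (mul_pos hCp ht0).le hLn) hTi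
  refine ⟨fun τ q => P0 + L (Φ τ (L.symm (T τ q - P0))),
    ⟨hI.1, hI.2.1, fun τ hτ => ⟨(hI.2.2 τ hτ).1, fun q => ((hI.2.2 τ hτ).2 q).trans ?_⟩⟩,
    P0, L, fun z => k (P0.2 + t • z), hN (m+2) P0 t ht0 L hL,
    hT (m+2) E0 hE0 k P0.2 r t ht0 htr fun w hw => (hk w hw).1, fun z hz => ?_⟩
  · linarith only [htd]
  · have hz' : P0.2 + t • z ∈ ball P0.2 r := by
      rw [mem_ball_iff_norm, add_sub_cancel_left, norm_smul, Real.norm_eq_abs, abs_of_pos ht0]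
      have h1 : ‖z‖ < 15 := mem_ball_zero_iff.1 hz
      nlinarith only [h1, ht0, htr]
    have e : T 1 (E0 (k (P0.2 + t • z))) - P0 = L (0, z) := by
      rw [(hk _ hz').2, hL]
      refine Prod.ext ?_ (Prod.ext ?_ ?_)
      · simp only [Prod.fst_sub, Prod.fst_add, Prod.smul_fst, Pi.add_apply, Pi.smul_apply,
          smul_eq_mul, add_sub_cancel_left, mul_zero, zero_add, Finset.mul_sum]
        exact Finset.sum_congr rfl fun i _ => by ring
      · simp only [Prod.snd_sub, Prod.fst_sub, Prod.fst_add, Prod.smul_fst, add_sub_cancel_left]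
      · simp only [Prod.snd_sub, Prod.snd_add, Prod.smul_snd, add_sub_cancel_left]
    change P0 + L (Φ 1 (L.symm (T 1 (E0 (k (P0.2 + t • z))) - P0))) = _
    rw [e, L.symm_apply_apply, hΦ1 z hz]

theorem top_row (hL : LOC_s) (hG : GEO_s) (hR : ROB_s) : TOP_s := by
  intro m E0 hE0 hEe δ hδ
  obtain ⟨κ, hκ⟩ := hL m
  obtain ⟨P, hP, P0, L, ch, h1, h2, h3⟩ := hG m κ E0 hE0 hEe δ hδ
  exact ⟨P, hP, hR (m+2) _ (Fm_smooth (Hm_smooth κ) s_smooth) hκ _
    ((hP.2.2 1 ⟨zero_le_one, le_rfl⟩).1.1.comp hE0) P0 L ch h1 h2 h3⟩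

end Pool.Agent.MP_b80928_gt.D5
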