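import Pool.Agent.MP_b80928_gt.D5.Defs
import Pool.Agent.MP_b80928_gt.DefsH

/-! The plug inserted in an arbitrary closed hypersurface `{f = 0}`. -/

set_option autoImplicit false

namespace Pool.Agent.MP_b80928_gt.D5

open Set Metric Filter Topology
open scoped ContDiff

/-- `ch` is a chart of `{f = 0}` on the set `B` -/
def ChartH {n : ℕ} (f : Pt n → ℝ) (ch : V n → Pt n) (B : Set (V n)) : Prop :=
  ∀ z ∈ B, ContDiffAt ℝ ∞ ch z ∧ f (ch z) = 0 ∧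
    (∀ w, fderiv ℝ f (ch z) (fderiv ℝ ch z w) = 0) ∧ Function.Injective (fderiv ℝ ch z)

theorem hyp_maxp {n : ℕ} {f : Pt n → ℝ} (hf : Hyp f) {E0 : Pt n → Pt n} (hE : ContDiff ℝ ∞ E0) :
    ∃ p, f p = 0 ∧ ∀ w, fderiv ℝ f p w = 0 → (fderiv ℝ E0 p w).1 = 0 := by
  obtain ⟨hs, hc, hne, hreg⟩ := hf
  obtain ⟨p, hp, hmax⟩ := hc.exists_isMaxOn hne
    (f := fun q => (E0 q).1) (hE.continuous.fst.continuousOn)
  have hp0 : f p = 0 := hp
  refine ⟨p, hp0, fun w hw => ?_⟩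
  have h1 : HasStrictFDerivAt f (fderiv ℝ f p) p :=
    hs.contDiffAt.hasStrictFDerivAt (by simp)
  have h2 : HasStrictFDerivAt (fun q => (E0 q).1)
      ((ContinuousLinearMap.fst ℝ ℝ (V n)).comp (fderiv ℝ E0 p)) p :=
    (hE.contDiffAt.hasStrictFDerivAt (by simp)).fst
  have h3 : IsLocalExtrOn (fun q => (E0 q).1) {x | f x = f p} p := by
    rw [hp0]
    exact Or.inr hmax.localize
  obtain ⟨a, b, hab, h4⟩ := h3.exists_multipliers_of_hasStrictFDerivAt_1d h1 h2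
  have hb : b ≠ 0 := by
    rintro rfl
    rw [zero_smul, add_zero] at h4
    rcases smul_eq_zero.1 h4 with h5 | h5
    · exact hab (by rw [h5]; rfl)
    · exact hreg p hp0 h5
  have h5 : a * fderiv ℝ f p w + b * (fderiv ℝ E0 p w).1 = 0 :=
    congrArg (fun L : Pt n →L[ℝ] ℝ => L w) h4
  rw [hw, mul_zero, zero_add] at h5
  exact (mul_eq_zero.1 h5).resolve_left hb

theorem hyp_ift_gen {U : Type} [NormedAddCommGroup U] [NormedSpace ℝ U] [FiniteDimensional ℝ U]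
    (G : U → U) (hG : ContDiff ℝ ∞ G) (p : U) (hp : Function.Injective (fderiv ℝ G p)) :
    ∃ K : U → U, ∀ᶠ a in 𝓝 (G p), ContDiffAt ℝ ∞ K a ∧ G (K a) = a := by
  have hc : CompleteSpace U := FiniteDimensional.complete ℝ U
  have hd : Differentiable ℝ G := hG.differentiable (by simp)
  obtain ⟨A, hA⟩ : ∃ A : U ≃L[ℝ] U, (A : U →L[ℝ] U) = fderiv ℝ G p :=
    ⟨(LinearEquiv.ofInjectiveEndo (fderiv ℝ G p : U →ₗ[ℝ] U) hp).toContinuousLinearEquiv,
      ContinuousLinearMap.ext fun _ => rfl⟩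
  have h1 : HasFDerivAt G (A : U →L[ℝ] U) p := by rw [hA]; exact (hd p).hasFDerivAt
  obtain ⟨e, he, hs⟩ : ∃ e : OpenPartialHomeomorph U U, (e : U → U) = G ∧ p ∈ e.source :=
    ⟨(hG.contDiffAt (x := p)).toOpenPartialHomeomorph G h1 (by simp), rfl,
      (hG.contDiffAt (x := p)).mem_toOpenPartialHomeomorph_source h1 (by simp)⟩
  have ht : G p ∈ e.target := by rw [← he]; exact e.map_source hs
  have hsym : e.symm (G p) = p := by rw [← he]; exact e.left_inv hs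
  have hcs : ContinuousAt e.symm (G p) := e.continuousAt_symm ht
  have hfc : Continuous (fderiv ℝ G) := hG.continuous_fderiv (by simp)
  have hev : ∀ᶠ a in 𝓝 (G p),
      fderiv ℝ G (e.symm a) ∈ range ((↑) : (U ≃L[ℝ] U) → U →L[ℝ] U) := by
    refine (hfc.continuousAt.comp hcs).eventually (ContinuousLinearEquiv.isOpen.mem_nhds ?_)
    exact ⟨A, by rw [Function.comp_apply, hsym]; exact hA⟩
  refine ⟨e.symm, ?_⟩
  filter_upwards [hev, e.open_target.mem_nhds ht] with a ha hat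
  obtain ⟨B, hB⟩ := ha
  refine ⟨e.contDiffAt_symm (f₀' := B) hat ?_ ?_, ?_⟩
  · rw [he, hB]; exact (hd _).hasFDerivAt
  · rw [he]; exact hG.contDiffAt
  · rw [← he]; exact e.right_inv hat

theorem hyp_ift {n : ℕ} {f : Pt n → ℝ} (hf : ContDiff ℝ ∞ f) {E0 : Pt n → Pt n}
    (hE : ContDiff ℝ ∞ E0) {p : Pt n} (hp : f p = 0)
    (hinj : ∀ w, fderiv ℝ f p w = 0 → (fderiv ℝ E0 p w).2 = 0 → w = 0) :
    ∃ r > 0, ∃ κ : V n → Pt n, ∀ w ∈ ball (E0 p).2 r,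
      ContDiffAt ℝ ∞ κ w ∧ f (κ w) = 0 ∧ (E0 (κ w)).2 = w := by
  have hd : Differentiable ℝ E0 := hE.differentiable (by simp)
  have hq : Differentiable ℝ f := hf.differentiable (by simp)
  have hG : ContDiff ℝ ∞ fun q : Pt n => ((f q, (E0 q).2) : Pt n) := hf.prodMk hE.snd
  have hD : HasFDerivAt (fun q : Pt n => ((f q, (E0 q).2) : Pt n))
      ((fderiv ℝ f p).prod ((ContinuousLinearMap.snd ℝ ℝ (V n)).comp (fderiv ℝ E0 p))) p :=
    (hq p).hasFDerivAt.prodMk (hd p).hasFDerivAt.snd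
  have hI : Function.Injective (fderiv ℝ (fun q : Pt n => ((f q, (E0 q).2) : Pt n)) p) := by
    rw [hD.fderiv, injective_iff_map_eq_zero]
    intro w hw
    exact hinj w (congrArg Prod.fst hw) (congrArg Prod.snd hw)
  obtain ⟨K, hK⟩ := hyp_ift_gen _ hG p hI
  have hι : ContDiff ℝ ∞ fun w : V n => (((0 : ℝ), w) : Pt n) := contDiff_const.prodMk contDiff_id
  have ht : Tendsto (fun w : V n => (((0 : ℝ), w) : Pt n)) (𝓝 (E0 p).2)
      (𝓝 ((f p, (E0 p).2) : Pt n)) := by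
    rw [hp]
    exact hι.continuous.tendsto _
  obtain ⟨r, hr, hb⟩ := Metric.eventually_nhds_iff_ball.1 (ht.eventually hK)
  refine ⟨r, hr, fun w => K (0, w), fun w hw => ?_⟩
  obtain ⟨h1, h2⟩ := hb w hw
  exact ⟨h1.comp w hι.contDiffAt, congrArg Prod.fst h2, congrArg Prod.snd h2⟩

theorem hyp_tan_mem {n : ℕ} {w0 : V n} {r t : ℝ} (ht : 0 < t) (hr : 15 * t ≤ r) {z : V n}
    (hz : z ∈ ball (0 : V n) 15) : w0 + t • z ∈ ball w0 r := by
  rw [mem_ball_zero_iff] at hz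
  rw [mem_ball, dist_eq_norm, add_sub_cancel_left, norm_smul, Real.norm_eq_abs, abs_of_pos ht]
  have := mul_lt_mul_of_pos_left hz ht
  linarith

theorem hyp_tan {n : ℕ} {f : Pt n → ℝ} (hf : ContDiff ℝ ∞ f) {E0 : Pt n → Pt n}
    (hE : ContDiff ℝ ∞ E0) (κ : V n → Pt n) (w0 : V n) (r t : ℝ) (ht : 0 < t) (hr : 15 * t ≤ r)
    (hκ : ∀ w ∈ ball w0 r, ContDiffAt ℝ ∞ κ w ∧ f (κ w) = 0 ∧ (E0 (κ w)).2 = w) :
    ChartH f (fun z => κ (w0 + t • z)) (ball 0 15) := by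
  intro z hz
  have haff : ContDiff ℝ ∞ (fun y : V n => w0 + t • y) :=
    contDiff_const.add (contDiff_id.const_smul t)
  have hsm : ContDiffAt ℝ ∞ (fun y : V n => κ (w0 + t • y)) z :=
    ContDiffAt.comp (g := κ) (f := fun y : V n => w0 + t • y) z (hκ _ (hyp_tan_mem ht hr hz)).1
      haff.contDiffAt
  have hd := (hsm.differentiableAt (by simp)).hasFDerivAt
  have hnb : ∀ᶠ y in 𝓝 z, y ∈ ball (0 : V n) 15 := isOpen_ball.mem_nhds hz
  refine ⟨hsm, (hκ _ (hyp_tan_mem ht hr hz)).2.1, fun w => ?_, ?_⟩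
  · have hfd := ((hf.differentiable (by simp)) (κ (w0 + t • z))).hasFDerivAt
    have h1 := HasFDerivAt.comp (g := f) (f := fun y : V n => κ (w0 + t • y)) z hfd hd
    have h2 : HasFDerivAt (f ∘ fun y : V n => κ (w0 + t • y)) (0 : V n →L[ℝ] ℝ) z :=
      (hasFDerivAt_const (0 : ℝ) z).congr_of_eventuallyEq
        (hnb.mono fun y hy => (hκ _ (hyp_tan_mem ht hr hy)).2.1)
    exact congrArg (fun L : V n →L[ℝ] ℝ => L w) (h1.unique h2)
  · have hEd := ((hE.differentiable (by simp)) (κ (w0 + t • z))).hasFDerivAt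
    have h1 : HasFDerivAt (fun y : V n => (E0 (κ (w0 + t • y))).2)
        ((ContinuousLinearMap.snd ℝ ℝ (V n)).comp ((fderiv ℝ E0 (κ (w0 + t • z))).comp
          (fderiv ℝ (fun y : V n => κ (w0 + t • y)) z))) z :=
      (HasFDerivAt.comp (g := E0) (f := fun y : V n => κ (w0 + t • y)) z hEd hd).snd
    have h2 : HasFDerivAt (fun y : V n => w0 + t • y) (t • ContinuousLinearMap.id ℝ (V n)) z :=
      ((hasFDerivAt_id z).const_smul t).const_add w0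
    have h2' : HasFDerivAt (fun y : V n => (E0 (κ (w0 + t • y))).2)
        (t • ContinuousLinearMap.id ℝ (V n)) z :=
      h2.congr_of_eventuallyEq (hnb.mono fun y hy => (hκ _ (hyp_tan_mem ht hr hy)).2.2)
    have h3 := h1.unique h2'
    intro w w' h
    have a : (fderiv ℝ E0 (κ (w0 + t • z))
        (fderiv ℝ (fun y : V n => κ (w0 + t • y)) z w)).2 = t • w :=
      congrArg (fun L : V n →L[ℝ] V n => L w) h3
    have b : (fderiv ℝ E0 (κ (w0 + t • z))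
        (fderiv ℝ (fun y : V n => κ (w0 + t • y)) z w')).2 = t • w' :=
      congrArg (fun L : V n →L[ℝ] V n => L w') h3
    rw [h, b] at a
    exact (smul_right_injective (V n) ht.ne' a).symm

theorem hyp_flat (hCUT : CUT_s) (hSH : SH_s) {n : ℕ} {φ : Pt n → ℝ} (hφ : Hyp φ)
    {E0 : Pt n → Pt n} (hemb : HypEmb φ ∞ E0) (δ : ℝ) (hδ : 0 < δ) :
    ∃ T : ℝ → Pt n → Pt n, Iso T δ ∧ ∃ (P0 : Pt n) (r : ℝ) (κ : V n → Pt n),
      0 < r ∧ ∀ w ∈ ball P0.2 r, (ContDiffAt ℝ ∞ κ w ∧ φ (κ w) = 0 ∧ (E0 (κ w)).2 = w) ∧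
        T 1 (E0 (κ w)) = (P0.1 + ∑ i, P0.2.2 i * (w.1 i - P0.2.1 i), w) := by
  have hE0 : ContDiff ℝ ∞ E0 := hemb.1
  obtain ⟨p, hp, hmax⟩ := hyp_maxp hφ hE0
  obtain ⟨r, hr, κ, hκ⟩ := hyp_ift hφ.1 hE0 hp fun w hw h2 =>
    hemb.2.2 p hp w hw (Prod.ext (hmax w hw) h2)
  obtain ⟨w0, hw0⟩ : ∃ w0 : V n, w0 = (E0 p).2 := ⟨_, rfl⟩
  rw [← hw0] at hκ
  obtain ⟨P0, hP0⟩ : ∃ P0 : Pt n, P0 = E0 (κ w0) := ⟨_, rfl⟩
  have h0 : P0.2 = w0 := by rw [hP0]; exact (hκ w0 (mem_ball_self hr)).2.2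
  obtain ⟨f, hfd⟩ : ∃ f : V n → ℝ,
      f = fun w => P0.1 + ∑ i, P0.2.2 i * (w.1 i - P0.2.1 i) - (E0 (κ w)).1 := ⟨_, rfl⟩
  have hlin : ContDiff ℝ ∞ fun w : V n => P0.1 + ∑ i, P0.2.2 i * (w.1 i - P0.2.1 i) := by
    refine contDiff_const.add (ContDiff.sum fun i _ => contDiff_const.mul (ContDiff.sub ?_ contDiff_const))
    exact (contDiff_apply ℝ ℝ i).comp contDiff_fst
  have hfs : ∀ w ∈ ball w0 r, ContDiffAt ℝ ∞ f w := by
    intro w hw
    rw [hfd]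
    exact hlin.contDiffAt.sub (hE0.contDiffAt.comp w (hκ w hw).1).fst
  have hf0 : f w0 = 0 := by
    rw [hfd]
    show P0.1 + ∑ i, P0.2.2 i * (w0.1 i - P0.2.1 i) - (E0 (κ w0)).1 = 0
    rw [← hP0, ← h0]
    simp
  obtain ⟨r1, hr1, hsm⟩ := Metric.continuousAt_iff.1 (hfs w0 (mem_ball_self hr)).continuousAt δ hδ
  have hr2 : 0 < min r r1 := lt_min hr hr1
  obtain ⟨g, hg, hgb, hgf⟩ := hCUT n f w0 (min r r1) δ hr2 fun w hw =>
    ⟨hfs w (ball_subset_ball (min_le_left _ _) hw), by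
      have h1 := hsm (mem_ball.1 (ball_subset_ball (min_le_right _ _) hw))
      rw [hf0, Real.dist_eq, sub_zero] at h1
      exact h1.le⟩
  refine ⟨fun τ (q : Pt n) => ((q.1 + τ * g q.2, q.2) : Pt n), hSH n g δ hg hgb, P0,
    min r r1 / 2, κ, half_pos hr2, fun w hw => ?_⟩
  rw [h0] at hw
  have hw1 : w ∈ ball w0 r :=
    ball_subset_ball ((half_le_self hr2.le).trans (min_le_left _ _)) hw
  refine ⟨hκ w hw1, ?_⟩
  have h2 : (E0 (κ w)).2 = w := (hκ w hw1).2.2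
  show (((E0 (κ w)).1 + 1 * g (E0 (κ w)).2, (E0 (κ w)).2) : Pt n) = _
  rw [h2, hgf w hw, hfd]
  refine Prod.ext ?_ rfl
  show (E0 (κ w)).1 + 1 * (P0.1 + ∑ i, P0.2.2 i * (w.1 i - P0.2.1 i) - (E0 (κ w)).1) = _
  ring

theorem hyp_mono {n : ℕ} {P : ℝ → Pt n → Pt n} {M M' : ℝ} (h : Iso P M) (hM : M ≤ M') :
    Iso P M' :=
  ⟨h.1, h.2.1, fun τ hτ => ⟨(h.2.2 τ hτ).1, fun q => ((h.2.2 τ hτ).2 q).trans hM⟩⟩

theorem hyp_geo (hCUT : CUT_s) (hSH : SH_s) (hPLUG : PLUG_s) (hAFF : AFF_s) (hCNJ : CNJ_s)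
    (hCJI : CJI_s) (hCOMP : COMP_s) (m : ℕ) (κ : ℝ) {f : Pt (m+2) → ℝ} (hf : Hyp f)
    {E0 : Pt (m+2) → Pt (m+2)} (hemb : HypEmb f ∞ E0) (δ : ℝ) (hδ : 0 < δ) :
    ∃ P : ℝ → Pt (m+2) → Pt (m+2), Iso P δ ∧
      ∃ (P0 : Pt (m+2)) (L : Pt (m+2) ≃L[ℝ] Pt (m+2)) (ch : V (m+2) → Pt (m+2)), Conj P0 L ∧
        ChartH f ch (ball 0 15) ∧
        ∀ z ∈ ball (0 : V (m+2)) 15, P 1 (E0 (ch z)) = P0 + L (Fm (Hm κ) s z) := by
  obtain ⟨T, hT, P0, r, k, hr, hk⟩ := hyp_flat hCUT hSH hf hemb (δ / 2) (by positivity)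
  obtain ⟨Φ, M, hΦ, hΦ1⟩ := hPLUG m κ
  obtain ⟨C, hC, hA⟩ := hAFF (m+2) P0
  have hM : 0 ≤ M := (norm_nonneg _).trans ((hΦ.2.2 0 ⟨le_rfl, zero_le_one⟩).2 0)
  have hCM : 0 < C * (M + 1) := by positivity
  obtain ⟨t, ht, ht1, htr, htd⟩ :
      ∃ t : ℝ, 0 < t ∧ t ≤ 1 ∧ t ≤ r / 15 ∧ t ≤ δ / 2 / (C * (M + 1)) :=
    ⟨min 1 (min (r / 15) (δ / 2 / (C * (M + 1)))),
      lt_min one_pos (lt_min (by positivity) (by positivity)), min_le_left _ _,
      (min_le_right _ _).trans (min_le_left _ _), (min_le_right _ _).trans (min_le_right _ _)⟩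
  have htr' : 15 * t ≤ r := by linarith
  have htd' : C * t * M ≤ δ / 2 := by
    have h1 : t * (C * (M + 1)) ≤ δ / 2 := (le_div_iff₀ hCM).1 htd
    nlinarith [mul_pos hC ht]
  obtain ⟨L, hL, hLn⟩ := hA t ht ht1
  have hB := hCJI (m+2) Φ M hΦ P0 L (C * t) (by positivity) hLn
  have hP := hCOMP (m+2) _ T _ _ hB hT
  refine ⟨_, hyp_mono hP (by linarith), P0, L, fun z => k (P0.2 + t • z),
    hCNJ (m+2) P0 t ht L hL, hyp_tan hf.1 hemb.1 k P0.2 r t ht htr' fun w hw => (hk w hw).1, ?_⟩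
  intro z hz
  have hw : P0.2 + t • z ∈ ball P0.2 r := by
    rw [mem_ball_zero_iff] at hz
    rw [mem_ball, dist_eq_norm, add_sub_cancel_left, norm_smul, Real.norm_of_nonneg ht.le]
    nlinarith
  have h1 : T 1 (E0 (k (P0.2 + t • z))) - P0 = L (0, z) := by
    rw [(hk _ hw).2, hL]
    refine Prod.ext ?_ ?_
    · simp only [Prod.fst_sub, add_sub_cancel_left, Prod.fst_add, Prod.smul_fst, Pi.add_apply,
        Pi.smul_apply, smul_eq_mul, mul_zero, zero_add, Finset.mul_sum]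
      exact Finset.sum_congr rfl fun i _ => by ring
    · simp only [Prod.snd_sub, add_sub_cancel_left]
      rfl
  show P0 + L (Φ 1 (L.symm (T 1 (E0 (k (P0.2 + t • z))) - P0))) = _
  rw [h1, L.symm_apply_apply, hΦ1 z hz]

theorem hyp_rob {n : ℕ} {F : V n → Pt n} (hloc : Loc F) {f : Pt n → ℝ} {E : Pt n → Pt n}
    (hE : ContDiff ℝ ∞ E) (P0 : Pt n) (L : Pt n ≃L[ℝ] Pt n) (ch : V n → Pt n)
    (hconj : Conj P0 L) (hch : ChartH f ch (ball 0 15))
    (hEF : ∀ z ∈ ball (0 : V n) 15, E (ch z) = P0 + L (F z)) :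
    ∃ ε > 0, ∀ E' : Pt n → Pt n, HypEmb f 2 E' → C1Near f ε E' E → ¬ConvexIm alpha f E' := by
  obtain ⟨ε, hε, hl⟩ := hloc
  have hsub : closedBall (0 : V n) 14 ⊆ ball 0 15 := closedBall_subset_ball (by norm_num)
  have hcont : ContinuousOn (fun z => fderiv ℝ ch z) (closedBall (0 : V n) 14) := fun z hz =>
    ((hch z (hsub hz)).1.continuousAt_fderiv (by simp)).continuousWithinAt
  obtain ⟨C0, hC0⟩ := (isCompact_closedBall (0 : V n) 14).exists_bound_of_continuousOn hcont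
  set Li : Pt n →L[ℝ] Pt n := (L.symm : Pt n →L[ℝ] Pt n) with hLi
  set K : ℝ := ‖Li‖ + 1 with hK
  set C : ℝ := |C0| + 1 with hC
  have hK0 : 0 < K := by positivity
  have hC1 : 1 ≤ C := by have := abs_nonneg C0; linarith
  have hLK : ∀ q, ‖Li q‖ ≤ K * ‖q‖ := fun q =>
    (Li.le_opNorm q).trans (mul_le_mul_of_nonneg_right (by linarith) (norm_nonneg _))
  have hchC : ∀ z ∈ closedBall (0 : V n) 14, ∀ w, ‖fderiv ℝ ch z w‖ ≤ C * ‖w‖ := fun z hz w =>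
    ((fderiv ℝ ch z).le_opNorm w).trans (mul_le_mul_of_nonneg_right
      ((hC0 z hz).trans (by have := le_abs_self C0; linarith)) (norm_nonneg _))
  have hKC : 0 < K * C := by positivity
  refine ⟨ε / (K * C), div_pos hε hKC, ?_⟩
  rintro E' ⟨hE', hE'e⟩ hclose ⟨U, hU, hEU, v, hv, htr⟩
  have hD : ∀ z ∈ closedBall (0 : V n) 14, ∀ G : Pt n → Pt n, Differentiable ℝ G → ∀ w,
      fderiv ℝ (fun y => Li (G (ch y) - P0)) z w = Li (fderiv ℝ G (ch z) (fderiv ℝ ch z w)) := by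
    intro z hz G hG w
    have h1 : HasFDerivAt (fun y => G (ch y)) ((fderiv ℝ G (ch z)).comp (fderiv ℝ ch z)) z :=
      (hG _).hasFDerivAt.comp z ((hch z (hsub hz)).1.differentiableAt (by simp)).hasFDerivAt
    have h2 : HasFDerivAt (fun y => Li (G (ch y) - P0))
        (Li.comp ((fderiv ℝ G (ch z)).comp (fderiv ℝ ch z))) z :=
      Li.hasFDerivAt.comp z (h1.sub_const P0)
    rw [h2.fderiv]; rfl
  have hFE : ∀ z ∈ ball (0 : V n) 15, F z = Li (E (ch z) - P0) := by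
    intro z hz
    rw [hEF z hz, add_sub_cancel_left]
    exact (L.symm_apply_apply _).symm
  have hback : ∀ q, P0 + L (Li (q - P0)) = q := by
    intro q
    have : L (Li (q - P0)) = q - P0 := L.apply_symm_apply _
    rw [this, add_sub_cancel]
  have hE'd : Differentiable ℝ E' := hE'.differentiable (by norm_num)
  have hEd : Differentiable ℝ E := hE.differentiable (by simp)
  have hUo : IsOpen {q | P0 + L q ∈ U} :=
    hU.preimage (continuous_const.add L.continuous)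
  obtain ⟨z, hz, w, hw⟩ := hl (fun y => Li (E' (ch y) - P0)) (fun z hz => by
      obtain ⟨g1, g2, g3, g4⟩ := hch z (hsub hz)
      refine ⟨Li.contDiff.contDiffAt.comp z
        ((hE'.contDiffAt.comp z (g1.of_le (by norm_cast))).sub contDiffAt_const), ?_, ?_, ?_⟩
      · rw [injective_iff_map_eq_zero]
        intro w hw
        rw [hD z hz E' hE'd] at hw
        have h1 : fderiv ℝ E' (ch z) (fderiv ℝ ch z w) = 0 :=
          L.symm.injective (hw.trans (map_zero _).symm)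
        exact (injective_iff_map_eq_zero _).1 g4 w (hE'e.2 _ g2 _ (g3 w) h1)
      · rw [hFE z (hsub hz), ← map_sub, sub_sub_sub_cancel_right]
        refine (hLK _).trans ((mul_le_mul_of_nonneg_left (hclose _ g2).1 hK0.le).trans ?_)
        have h1 : K * (ε / (K * C)) = ε / C := by field_simp
        rw [h1]
        exact div_le_self hε.le hC1
      · have h0 : F =ᶠ[𝓝 z] fun y => Li (E (ch y) - P0) :=
          (isOpen_ball.eventually_mem (hsub hz)).mono fun y hy => hFE y hy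
        rw [h0.fderiv_eq]
        refine ContinuousLinearMap.opNorm_le_bound _ hε.le fun w => ?_
        rw [sub_apply, hD z hz E' hE'd, hD z hz E hEd, ← map_sub]
        refine (hLK _).trans ((mul_le_mul_of_nonneg_left ((hclose _ g2).2 _ (g3 w)) hK0.le).trans ?_)
        calc K * (ε / (K * C) * ‖fderiv ℝ ch z w‖) ≤ K * (ε / (K * C) * (C * ‖w‖)) :=
              mul_le_mul_of_nonneg_left
                (mul_le_mul_of_nonneg_left (hchC z hz w) (div_pos hε hKC).le) hK0.le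
          _ = ε * ‖w‖ := by field_simp)
    {q | P0 + L q ∈ U} hUo
    (fun z hz => by
      show P0 + L (Li (E' (ch z) - P0)) ∈ U
      rw [hback]
      exact hEU _ (hch z (hsub hz)).2.1)
    (fun q => L.symm (v (P0 + L q))) (hconj v U hU hv)
  obtain ⟨-, g2, g3, -⟩ := hch z (hsub hz)
  rw [hD z hz E' hE'd] at hw
  have h1 : Li (fderiv ℝ E' (ch z) (fderiv ℝ ch z w)) =
      L.symm (v (P0 + L (Li (E' (ch z) - P0)))) := hw
  rw [hback] at h1
  exact htr _ g2 _ (g3 w) (L.symm.injective h1)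

theorem hyp_top (hLOC : LOC_s) (hCUT : CUT_s) (hSH : SH_s) (hPLUG : PLUG_s) (hAFF : AFF_s)
    (hCNJ : CNJ_s) (hCJI : CJI_s) (hCOMP : COMP_s) (m : ℕ) {f : Pt (m+2) → ℝ} (hf : Hyp f)
    {E0 : Pt (m+2) → Pt (m+2)} (hemb : HypEmb f ∞ E0) (δ : ℝ) (hδ : 0 < δ) :
    ∃ P : ℝ → Pt (m+2) → Pt (m+2), Iso P δ ∧ ∃ ε > 0, ∀ E' : Pt (m+2) → Pt (m+2),
      HypEmb f 2 E' → C1Near f ε E' (P 1 ∘ E0) → ¬ConvexIm alpha f E' := by
  obtain ⟨κ, hκ⟩ := hLOC m
  obtain ⟨P, hP, P0, L, ch, h1, h2, h3⟩ :=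
    hyp_geo hCUT hSH hPLUG hAFF hCNJ hCJI hCOMP m κ hf hemb δ hδ
  exact ⟨P, hP, hyp_rob hκ ((hP.2.2 1 ⟨zero_le_one, le_rfl⟩).1.1.comp hemb.1) P0 L ch h1 h2 h3⟩

end Pool.Agent.MP_b80928_gt.D5
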