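import Pool.Agent.MP_b80928_gt.D5.Defs

set_option autoImplicit false

namespace Pool.Agent.MP_b80928_gt.D5

open Set Metric Filter Topology
open scoped ContDiff

theorem ift_gen {U : Type} [NormedAddCommGroup U] [NormedSpace ℝ U] [FiniteDimensional ℝ U]
    (G : U → U) (hG : ContDiff ℝ ∞ G) (p : U) (hp : Function.Injective (fderiv ℝ G p)) :
    ∃ K : U → U, ∀ᶠ a in 𝓝 (G p), ContDiffAt ℝ ∞ K a ∧ G (K a) = a := by
  have hc : CompleteSpace U := FiniteDimensional.complete ℝ U
  have hd : Differentiable ℝ G := hG.differentiable (by simp)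
  obtain ⟨A, hA⟩ : ∃ A : U ≃L[ℝ] U, (A : U →L[ℝ] U) = fderiv ℝ G p :=
    ⟨(LinearEquiv.ofInjectiveEndo (fderiv ℝ G p : U →ₗ[ℝ] U) hp).toContinuousLinearEquiv,
      ContinuousLinearMap.ext fun _ => rfl⟩
  have h1 : HasFDerivAt G (A : U →L[ℝ] U) p := by rw [hA]; exact (hd p).hasFDerivAt
  obtain ⟨e, he, hs⟩ : ∃ e : OpenPartialHomeomorph U U, (e : U → U) = G ∧ p ∈ e.source :=
    ⟨(hG.contDiffAt (x := p)).toOpenPartialHomeomorph G h1 (by simp), rfl,
      (hG.contDiffAt (x := p)).mem_toOpenPartialHomeomorph_source h1 (by simp)⟩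
  have ht : G p ∈ e.target := by rw [← he]; exact e.map_source hs
  have hsym : e.symm (G p) = p := by rw [← he]; exact e.left_inv hs
  have hcs : ContinuousAt e.symm (G p) := e.continuousAt_symm ht
  have hfc : Continuous (fderiv ℝ G) := hG.continuous_fderiv (by simp)
  have hev : ∀ᶠ a in 𝓝 (G p),
      fderiv ℝ G (e.symm a) ∈ range ((↑) : (U ≃L[ℝ] U) → U →L[ℝ] U) := by
    refine (hfc.continuousAt.comp hcs).eventually (ContinuousLinearEquiv.isOpen.mem_nhds ?_)
    exact ⟨A, by rw [Function.comp_apply, hsym]; exact hA⟩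
  refine ⟨e.symm, ?_⟩
  filter_upwards [hev, e.open_target.mem_nhds ht] with a ha hat
  obtain ⟨B, hB⟩ := ha
  refine ⟨e.contDiffAt_symm (f₀' := B) hat ?_ ?_, ?_⟩
  · rw [he, hB]; exact (hd _).hasFDerivAt
  · rw [he]; exact hG.contDiffAt
  · rw [← he]; exact e.right_inv hat

theorem ift_dot_smooth {n : ℕ} : ContDiff ℝ ∞ fun q : Pt n => dot q q := by
  unfold dot
  fun_prop

theorem ift_dot_deriv {n : ℕ} (p w : Pt n) :
    fderiv ℝ (fun q : Pt n => dot q q) p w = 2 * dot p w := by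
  have hγ : HasDerivAt (fun t : ℝ => p + t • w) w 0 := by
    simpa using ((hasDerivAt_id (0 : ℝ)).smul_const w).const_add p
  have h1 := emb_dot_deriv hγ
  have hd : HasFDerivAt (fun q : Pt n => dot q q) (fderiv ℝ (fun q : Pt n => dot q q) p)
      (p + (0 : ℝ) • w) := by
    rw [zero_smul, add_zero]
    exact ((ift_dot_smooth (n := n)).differentiable (by simp) p).hasFDerivAt
  have h2 := hd.comp_hasDerivAt (0 : ℝ) hγ
  have h3 := h2.unique h1
  rw [h3, zero_smul, add_zero]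

theorem ift_row : IFT_s := by
  intro n E0 hE p hp hinj
  have hd : Differentiable ℝ E0 := hE.differentiable (by simp)
  have hq : Differentiable ℝ fun q : Pt n => dot q q :=
    (ift_dot_smooth (n := n)).differentiable (by simp)
  have hG : ContDiff ℝ ∞ fun q : Pt n => ((dot q q, (E0 q).2) : Pt n) :=
    ift_dot_smooth.prodMk hE.snd
  have hD : HasFDerivAt (fun q : Pt n => ((dot q q, (E0 q).2) : Pt n))
      ((fderiv ℝ (fun q : Pt n => dot q q) p).prod
        ((ContinuousLinearMap.snd ℝ ℝ (V n)).comp (fderiv ℝ E0 p))) p :=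
    (hq p).hasFDerivAt.prodMk (hd p).hasFDerivAt.snd
  have hI : Function.Injective (fderiv ℝ (fun q : Pt n => ((dot q q, (E0 q).2) : Pt n)) p) := by
    rw [hD.fderiv, injective_iff_map_eq_zero]
    intro w hw
    have h1 : fderiv ℝ (fun q : Pt n => dot q q) p w = 0 := congrArg Prod.fst hw
    have h2 : (fderiv ℝ E0 p w).2 = 0 := congrArg Prod.snd hw
    rw [ift_dot_deriv] at h1
    exact hinj w (by linarith only [h1]) h2
  obtain ⟨K, hK⟩ := ift_gen _ hG p hI
  have hp1 : dot p p = 1 := hp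
  have hι : ContDiff ℝ ∞ fun w : V n => (((1 : ℝ), w) : Pt n) := contDiff_const.prodMk contDiff_id
  have ht : Tendsto (fun w : V n => (((1 : ℝ), w) : Pt n)) (𝓝 (E0 p).2)
      (𝓝 ((dot p p, (E0 p).2) : Pt n)) := by
    rw [hp1]
    exact hι.continuous.tendsto _
  obtain ⟨r, hr, hb⟩ := Metric.eventually_nhds_iff_ball.1 (ht.eventually hK)
  refine ⟨r, hr, fun w => K (1, w), fun w hw => ?_⟩
  obtain ⟨h1, h2⟩ := hb w hw
  exact ⟨h1.comp w hι.contDiffAt, congrArg Prod.fst h2, congrArg Prod.snd h2⟩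

end Pool.Agent.MP_b80928_gt.D5
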