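import Pool.Agent.MP_b80928_gt.D5.Defs

set_option autoImplicit false

namespace Pool.Agent.MP_b80928_gt.D5

open Set Metric Filter Topology
open scoped ContDiff

theorem loc_row : LOC_s := by
  intro m
  obtain ⟨e, κ, δ, C, Z, C2, hP⟩ := exists_par m
  have he := hP.e_pos
  have he' := hP.e_le
  have hδ := hP.δ_pos
  have hδ' := hP.δ_le
  have hH := Hm_smooth (m := m) κ
  have hXs : ContDiff ℝ ∞ (X0 (m := m) κ) := Xm_smooth hH s_smooth
  obtain ⟨η, hη, hrob⟩ := faces_robust he he' hδ hδ' (X0 κ) hXs.continuous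
    fun z hz => faces_X0 hP hz
  have hcs : ContDiff ℝ ∞ fun z : V (m+2) => s (z.1 0) := s_smooth.comp (by fun_prop)
  obtain ⟨ε, hε, hper⟩ := perturb (closedBall (0 : V (m+2)) 14) (isCompact_closedBall _ _)
    (Fm (Hm κ) s) (X0 κ) (fun z => s (z.1 0)) ((Fm_smooth hH s_smooth).of_le (by norm_cast))
    (hXs.of_le (by norm_cast)) (hcs.of_le (by norm_cast))
    (fun z _ => isChar_Xm hH s_smooth z)
    (fun z _ h => by
      have h1 := main_Hy κ z (by rw [show s (z.1 0) = 0 from h.2]; norm_num)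
      have h2 : (X0 κ z).1 0 = fderiv ℝ (Hm κ) z (ey 0) := by simp [X0, Xm]
      rw [← h2, h.1] at h1
      simp at h1)
    (fun z _ => Fm_imm hH s_smooth s_abs_le (main_Hy κ) z) (min η (1 / 2))
    (lt_min hη (by norm_num))
  refine ⟨κ, ε, hε, fun F' hF' U hU hFU v hv => ?_⟩
  by_contra hcon
  have htr : ∀ z ∈ closedBall (0 : V (m+2)) 14, ∀ w, fderiv ℝ F' z w ≠ v (F' z) :=
    fun z hz w h => hcon ⟨z, hz, w, h⟩
  obtain ⟨X', c', hX'⟩ := hper F' (fun z hz => (hF' z hz).1) fun z hz => (hF' z hz).2.2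
  have hN : N m e δ ⊆ closedBall 0 14 :=
    (N_subset he he' hδ hδ').trans (closedBall_subset_closedBall (by norm_num))
  exact obstruct (N m e δ) (N_compact he he' hδ hδ') F' X' c' phi
    (fun z hz => (hF' z (hN hz)).1.of_le (by norm_num))
    (fun z hz => (hX' z (hN hz)).1.continuousAt.continuousWithinAt)
    (fun z hz => (hX' z (hN hz)).2.1.continuousAt.continuousWithinAt)
    (fun z => (phi_hasFDerivAt z).differentiableAt) (fun z hz => (hX' z (hN hz)).2.2.1)
    (fun z hz => (hX' z (hN hz)).2.2.2.1) (fun z hz => (hF' z (hN hz)).2.1) U hU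
    (fun z hz => hFU z (hN hz)) v hv (fun z hz w => htr z (hN hz) w)
    (main_orbit he he' hδ hδ' X' c' (fun z hz => (hX' z hz).1)
      (fun z hz => hrob z hz _ ((hX' z (hN hz)).2.2.2.2.1.trans (min_le_left _ _)))
      (fun z hz => (hX' z (hN hz)).2.2.2.2.2.trans (min_le_right _ _)))

end Pool.Agent.MP_b80928_gt.D5
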