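import Pool.Agent.MP_b80928_gt.D5.Defs

set_option autoImplicit false

namespace Pool.Agent.MP_b80928_gt.D5

open Set Metric Filter Topology
open scoped ContDiff

theorem maxp_cont (n : ℕ) : Continuous fun p : Pt n => dot p p := by
  unfold dot
  fun_prop

theorem maxp_bdd {n : ℕ} {p : Pt n} (hp : p ∈ sph n) : ‖p‖ ≤ 1 := by
  have h : p.1 * p.1 + ∑ i, p.2.1 i * p.2.1 i + ∑ i, p.2.2 i * p.2.2 i = 1 := hp
  have h1 : 0 ≤ ∑ i, p.2.1 i * p.2.1 i := Finset.sum_nonneg fun i _ => mul_self_nonneg _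
  have h2 : 0 ≤ ∑ i, p.2.2 i * p.2.2 i := Finset.sum_nonneg fun i _ => mul_self_nonneg _
  have h0 := mul_self_nonneg p.1
  have k : ∀ a : ℝ, a * a ≤ 1 → ‖a‖ ≤ 1 := fun a ha => by
    rw [Real.norm_eq_abs]
    exact abs_le_one_iff_mul_self_le_one.2 ha
  rw [Prod.norm_def, Prod.norm_def]
  refine max_le (k _ (by linarith)) (max_le ?_ ?_)
  · refine (pi_norm_le_iff_of_nonneg zero_le_one).2 fun i => k _ ?_
    have := Finset.single_le_sum (f := fun j => p.2.1 j * p.2.1 j)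
      (fun j _ => mul_self_nonneg _) (Finset.mem_univ i)
    linarith
  · refine (pi_norm_le_iff_of_nonneg zero_le_one).2 fun i => k _ ?_
    have := Finset.single_le_sum (f := fun j => p.2.2 j * p.2.2 j)
      (fun j _ => mul_self_nonneg _) (Finset.mem_univ i)
    linarith

theorem maxp_compact (n : ℕ) : IsCompact (sph n) :=
  (isCompact_closedBall (0 : Pt n) 1).of_isClosed_subset
    (isClosed_eq (maxp_cont n) continuous_const) fun _ hp => mem_closedBall_zero_iff.2 (maxp_bdd hp)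

theorem maxp_smul {n : ℕ} (c : ℝ) (q : Pt n) : dot (c • q) (c • q) = c ^ 2 * dot q q := by
  rw [emb_dot_self, emb_dot_self]
  have h : (c • q).2 = c • q.2 := rfl
  have h' : (c • q).1 = c * q.1 := rfl
  rw [h, h', emb_q_smul]
  ring

theorem maxp_row : MAXP_s := by
  intro n E0 hE
  have hne : (sph n).Nonempty := ⟨(1, 0, 0), by simp [sph, dot]⟩
  obtain ⟨p, hp, hmax⟩ := (maxp_compact n).exists_isMaxOn hne
    (f := fun q => (E0 q).1) (hE.continuous.fst.continuousOn)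
  refine ⟨p, hp, fun w hw => ?_⟩
  have hp1 : dot p p = 1 := hp
  have hl : HasDerivAt (fun u : ℝ => p + u • w) w 0 := by
    simpa using ((hasDerivAt_id (0 : ℝ)).smul_const w).const_add p
  have hz0 : p + (0 : ℝ) • w = p := by simp
  have hN : HasDerivAt (fun u : ℝ => dot (p + u • w) (p + u • w)) 0 0 := by
    have h := emb_dot_deriv hl
    rw [hz0, hw, mul_zero] at h
    exact h
  have hN0 : dot (p + (0 : ℝ) • w) (p + (0 : ℝ) • w) = 1 := by rw [hz0, hp1]
  have hs : HasDerivAt (fun u : ℝ => Real.sqrt (dot (p + u • w) (p + u • w))) 0 0 := by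
    have h := hN.sqrt (by rw [hN0]; exact one_ne_zero)
    rw [zero_div] at h
    exact h
  have hc : HasDerivAt (fun u : ℝ => (Real.sqrt (dot (p + u • w) (p + u • w)))⁻¹) 0 0 := by
    have h := hs.fun_inv (by rw [hN0, Real.sqrt_one]; exact one_ne_zero)
    rw [neg_zero, zero_div] at h
    exact h
  have hγ : HasDerivAt
      (fun u : ℝ => (Real.sqrt (dot (p + u • w) (p + u • w)))⁻¹ • (p + u • w)) w 0 := by
    have h := hc.fun_smul hl
    rw [hN0, Real.sqrt_one, inv_one, one_smul, zero_smul, add_zero] at h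
    exact h
  have hγ0 : (Real.sqrt (dot (p + (0 : ℝ) • w) (p + (0 : ℝ) • w)))⁻¹ • (p + (0 : ℝ) • w) = p := by
    rw [hN0, Real.sqrt_one, inv_one, one_smul, hz0]
  have hpos : ∀ᶠ u in 𝓝 (0 : ℝ), 0 < dot (p + u • w) (p + u • w) :=
    hN.continuousAt.eventually (lt_mem_nhds (lt_of_lt_of_eq one_pos hN0.symm))
  have hEd := ((hE.differentiable (by simp)) p).hasFDerivAt
  have hg : HasDerivAt
      (fun u : ℝ => (E0 ((Real.sqrt (dot (p + u • w) (p + u • w)))⁻¹ • (p + u • w))).1)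
      (fderiv ℝ E0 p w).1 0 :=
    (ContinuousLinearMap.fst ℝ ℝ (V n)).hasFDerivAt.comp_hasDerivAt (0 : ℝ)
      (HasFDerivAt.comp_hasDerivAt_of_eq (0 : ℝ) hEd hγ hγ0.symm)
  refine IsLocalMax.hasDerivAt_eq_zero ?_ hg
  refine hpos.mono fun u hu => ?_
  have hm : (Real.sqrt (dot (p + u • w) (p + u • w)))⁻¹ • (p + u • w) ∈ sph n := by
    show dot _ _ = 1
    rw [maxp_smul, inv_pow, Real.sq_sqrt hu.le, inv_mul_cancel₀ hu.ne']
  have h := hmax hm
  show (E0 _).1 ≤ (E0 _).1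
  rw [hγ0]
  exact h

end Pool.Agent.MP_b80928_gt.D5
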