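import Pool.Agent.MP_b80928_gt.D5.Defs

set_option autoImplicit false

namespace Pool.Agent.MP_b80928_gt.D5

open Set Metric Filter Topology
open scoped ContDiff

theorem plug_row (hC : COMP_s) (hS : SH_s) (hK : CUT_s) (hR : RE_s) (hT : TW_s) (hB : BY_s) :
    PLUG_s := by
  intro m κ
  have hH := Hm_smooth (m := m) κ
  have hs : ContDiff ℝ ∞ fun w : V (m+2) => s (w.1 0) := s_smooth.comp (by fun_prop)
  have hy : ContDiff ℝ ∞ fun w : V (m+2) => w.2 0 := by fun_prop
  have ht : ContDiff ℝ ∞ fun w : V (m+2) => Real.pi * (1 - s (w.1 0)) / 2 :=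
    (contDiff_const.mul (contDiff_const.sub hs)).div_const 2
  have hθ : ContDiff ℝ ∞ fun x : ℝ => Real.pi * (1 - s x) / 2 :=
    (contDiff_const.mul (contDiff_const.sub s_smooth)).div_const 2
  have ha : ContDiff ℝ ∞ fun w : V (m+2) =>
      Hm κ w * Real.cos (Real.pi * (1 - s (w.1 0)) / 2) -
        s (w.1 0) * w.2 0 * Real.sin (Real.pi * (1 - s (w.1 0)) / 2) :=
    (hH.mul ht.cos).sub ((hs.mul hy).mul ht.sin)
  have hb : ContDiff ℝ ∞ fun w : V (m+2) =>
      Hm κ w * Real.sin (Real.pi * (1 - s (w.1 0)) / 2) +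
        s (w.1 0) * w.2 0 * Real.cos (Real.pi * (1 - s (w.1 0)) / 2) :=
    (hH.mul ht.sin).add ((hs.mul hy).mul ht.cos)
  obtain ⟨Ma, hMa⟩ := (isCompact_closedBall (0 : V (m+2)) 30).exists_bound_of_continuousOn
    ha.continuous.continuousOn
  obtain ⟨Mb, hMb⟩ := (isCompact_closedBall (0 : V (m+2)) 30).exists_bound_of_continuousOn
    hb.continuous.continuousOn
  obtain ⟨g, hg, hgM, hge⟩ := hK (m+2) _ 0 30 Ma (by norm_num)
    fun w hw => ⟨ha.contDiffAt, hMa w (ball_subset_closedBall hw)⟩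
  obtain ⟨P, M1, hP, hPe⟩ := hR (m+1) _ hb (hB m κ)
  obtain ⟨T, M2, hT1, hTe⟩ := hT (m+1) _ hθ (max Ma Mb)
  refine ⟨_, _, hC (m+2) _ _ _ _ hT1 (hC (m+2) _ _ _ _ hP (hS (m+2) g Ma hg hgM)), fun w hw => ?_⟩
  have hw' : w ∈ closedBall (0 : V (m+2)) 30 :=
    ball_subset_closedBall (ball_subset_ball (by norm_num) hw)
  have e1 := hge w (ball_subset_ball (by norm_num) hw)
  have e2 := hPe (0 + 1 * g w) w hw
  have e3 : |0 + 1 * g w| ≤ max Ma Mb := by
    rw [zero_add, one_mul]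
    exact (hgM w).trans (le_max_left _ _)
  show T 1 (P 1 (0 + 1 * g w, w)) = _
  rw [e2, hTe _ e3 (by
    simp only [Function.update_self]
    exact (hMb w hw').trans (le_max_right _ _))]
  have e4 := Real.sin_sq_add_cos_sq (Real.pi * (1 - s (w.1 0)) / 2)
  simp only [Function.update_self, Function.update_idem, Fm, e1]
  refine Prod.ext ?_ (Prod.ext rfl ?_)
  · show _ = Hm κ w
    linear_combination Hm κ w * e4
  · show Function.update w.2 0 _ = Function.update w.2 0 _
    refine congrArg (Function.update w.2 0) ?_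
    linear_combination s (w.1 0) * w.2 0 * e4

end Pool.Agent.MP_b80928_gt.D5
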