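import Pool.Agent.MP_b80928_gt.D5.Defs

set_option autoImplicit false

namespace Pool.Agent.MP_b80928_gt.D5

open Set Metric Filter Topology
open scoped ContDiff

theorem re_line {n : ℕ} {h : V n → ℝ} (hh : ContDiff ℝ ∞ h) (w e : V n) (t : ℝ) :
    HasDerivAt (fun t : ℝ => h (w + t • e)) (fderiv ℝ h (w + t • e) e) t := by
  have h1 : HasDerivAt (fun t : ℝ => w + t • e) e t := by
    simpa using ((hasDerivAt_id t).smul_const e).const_add w
  exact (hh.differentiable (by simp) _).hasFDerivAt.comp_hasDerivAt t h1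

theorem re_iso {n : ℕ} (h : V n → ℝ) (hh : ContDiff ℝ ∞ h) (e : V n) (M : ℝ)
    (hM : ∀ w, |h w| ≤ M) (hd : ∀ w, -1 < fderiv ℝ h w e) :
    Iso (fun (τ : ℝ) (q : Pt n) => q + (τ * h q.2) • ((0, e) : Pt n)) (M * ‖((0, e) : Pt n)‖) := by
  refine ⟨by fun_prop, fun q => by simp, fun τ hτ => ⟨⟨by fun_prop, ?_, ?_⟩, fun q => ?_⟩⟩
  · intro q q' hq
    have h1 : q' = q + (τ * h q.2 - τ * h q'.2) • ((0, e) : Pt n) := by
      have h0 : q + (τ * h q.2) • ((0, e) : Pt n) = q' + (τ * h q'.2) • ((0, e) : Pt n) := hq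
      rw [sub_smul, ← add_sub_assoc, h0, add_sub_cancel_right]
    obtain ⟨t, ht⟩ : ∃ t, t = τ * h q.2 - τ * h q'.2 := ⟨_, rfl⟩
    rw [← ht] at h1
    have h2 : q'.2 = q.2 + t • e := by rw [h1]; rfl
    have h3 : StrictMono fun t : ℝ => t + τ * h (q.2 + t • e) :=
      strictMono_of_hasDerivAt_pos
        (fun t => (hasDerivAt_id' t).add ((re_line hh q.2 e t).const_mul τ)) fun t => by
          have h4 := hd (q.2 + t • e)
          rcases le_total 0 (fderiv ℝ h (q.2 + t • e) e) with h5 | h5 <;> nlinarith [hτ.1, hτ.2]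
    have h6 : t = 0 := h3.injective (by
      show t + τ * h (q.2 + t • e) = 0 + τ * h (q.2 + (0 : ℝ) • e)
      rw [← h2, zero_smul, add_zero, ht]
      ring)
    rw [h1, h6, zero_smul, add_zero]
  · intro q
    have h1 : HasFDerivAt (fun q : Pt n => h q.2)
        ((fderiv ℝ h q.2).comp (ContinuousLinearMap.snd ℝ ℝ (V n))) q :=
      (hh.differentiable (by simp) _).hasFDerivAt.comp q hasFDerivAt_snd
    have h2 := (hasFDerivAt_id q).add ((h1.const_mul τ).smul_const ((0, e) : Pt n))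
    have h3 : fderiv ℝ (fun q : Pt n => q + (τ * h q.2) • ((0, e) : Pt n)) q = _ := h2.fderiv
    rw [h3, injective_iff_map_eq_zero]
    intro v hv
    have h4 : v + (τ * fderiv ℝ h q.2 v.2) • ((0, e) : Pt n) = 0 := by simpa using hv
    obtain ⟨c, hc⟩ : ∃ c, c = -(τ * fderiv ℝ h q.2 v.2) := ⟨_, rfl⟩
    have h5 : v = c • ((0, e) : Pt n) := by
      rw [hc, neg_smul]
      exact eq_neg_of_add_eq_zero_left h4
    have h6 : v.2 = c • e := by rw [h5]; rfl
    rw [h6, map_smul, smul_eq_mul] at hc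
    have h7 : 0 < 1 + τ * fderiv ℝ h q.2 e := by
      have h8 := hd q.2
      rcases le_total 0 (fderiv ℝ h q.2 e) with h9 | h9 <;> nlinarith [hτ.1, hτ.2]
    have h10 : c * (1 + τ * fderiv ℝ h q.2 e) = 0 := by linarith
    rw [h5, (mul_eq_zero.1 h10).resolve_right h7.ne', zero_smul]
  · rw [add_sub_cancel_left, norm_smul, Real.norm_eq_abs, abs_mul, abs_of_nonneg hτ.1]
    refine mul_le_mul_of_nonneg_right ?_ (norm_nonneg _)
    have h1 := hM q.2
    have h2 := abs_nonneg (h q.2)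
    nlinarith [hτ.1, hτ.2]

theorem re_clamp : ∃ c c' : ℝ → ℝ, ContDiff ℝ ∞ c ∧ (∀ y, HasDerivAt c (c' y) y) ∧
    (∀ y, 0 ≤ c' y ∧ c' y ≤ 1) ∧ (∀ y, |c y| ≤ 17) ∧ ∀ y, |y| ≤ 15 → c y = y := by
  have hS := S_smooth
  have s1 : S 1 = 1 / 2 := by rw [S_of_one_le le_rfl]; norm_num
  refine ⟨fun y => y - S (y - 15) + S (-y - 15), fun y => 1 - ze (y - 15) - ze (-y - 15),
    by fun_prop, fun y => ?_, fun y => ?_, fun y => ?_, fun y hy => ?_⟩
  · have h1 := (S_hasDerivAt (y - 15)).comp y ((hasDerivAt_id' y).sub_const 15)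
    have h2 := (S_hasDerivAt (-y - 15)).comp y ((hasDerivAt_neg' y).sub_const 15)
    exact (((hasDerivAt_id' y).sub h1).add h2).congr_deriv (by ring)
  · have a1 : 0 ≤ ze (y - 15) := Real.smoothTransition.nonneg _
    have a2 : ze (y - 15) ≤ 1 := Real.smoothTransition.le_one _
    have a3 : 0 ≤ ze (-y - 15) := Real.smoothTransition.nonneg _
    have a4 : ze (-y - 15) ≤ 1 := Real.smoothTransition.le_one _
    rcases le_total 0 y with h | h
    · have a5 : ze (-y - 15) = 0 := fy_ze0 (by linarith)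
      constructor <;> linarith
    · have a5 : ze (y - 15) = 0 := fy_ze0 (by linarith)
      constructor <;> linarith
  · have a1 := S_nonneg (y - 15)
    have a2 := S_nonneg (-y - 15)
    rw [abs_le]
    rcases le_total 0 y with h | h
    · have a3 : S (-y - 15) = 0 := S_of_nonpos (by linarith)
      rcases le_total y 16 with h' | h'
      · have a4 : S (y - 15) ≤ S 1 := S_mono (by linarith)
        constructor <;> linarith
      · have a4 := S_of_one_le (u := y - 15) (by linarith)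
        constructor <;> linarith
    · have a3 : S (y - 15) = 0 := S_of_nonpos (by linarith)
      rcases le_total (-16) y with h' | h'
      · have a4 : S (-y - 15) ≤ S 1 := S_mono (by linarith)
        constructor <;> linarith
      · have a4 := S_of_one_le (u := -y - 15) (by linarith)
        constructor <;> linarith
  · rw [abs_le] at hy
    show y - S (y - 15) + S (-y - 15) = y
    rw [S_of_nonpos (by linarith), S_of_nonpos (by linarith)]
    ring

theorem re_row : RE_s := by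
  intro k b hb hby
  obtain ⟨c, c', hc, hcd, hc1, hc2, hc3⟩ := re_clamp
  obtain ⟨B, hB, hB0, hB1, hB2⟩ : ∃ B : V (k+1) → ℝ, ContDiff ℝ ∞ B ∧ (∀ w, 0 ≤ B w ∧ B w ≤ 1) ∧
      (∀ w, ‖w‖ ≤ 15 → B w = 1) ∧ ∀ w, 16 ≤ ‖w‖ → B w = 0 := by
    let f : ContDiffBump (0 : V (k+1)) := ⟨15, 16, by norm_num, by norm_num⟩
    exact ⟨f, f.contDiff, fun w => ⟨f.nonneg, f.le_one⟩,
      fun w hw => f.one_of_mem_closedBall (mem_closedBall_zero_iff.2 hw),
      fun w hw => f.zero_of_le_dist (by rw [dist_zero_right]; exact hw)⟩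
  obtain ⟨e, he⟩ : ∃ e : V (k+1), e = ey 0 := ⟨_, rfl⟩
  have he0 : e.2 0 = 1 := by rw [he]; simp [ey]
  rw [← he] at hby
  obtain ⟨h, hh⟩ : ∃ h : V (k+1) → ℝ, h = fun w =>
      B (w - w.2 0 • e) * (b (w - w.2 0 • e + c (w.2 0) • e) - c (w.2 0)) := ⟨_, rfl⟩
  have hs : ContDiff ℝ ∞ h := by rw [hh]; fun_prop
  obtain ⟨K, hK⟩ := (isCompact_closedBall (0 : V (k+1)) (16 + 17 * ‖e‖)).exists_bound_of_continuousOn
    hb.continuous.continuousOn
  have hK0 : 0 ≤ K := (norm_nonneg _).trans (hK 0 (mem_closedBall_self (by positivity)))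
  have hM : ∀ w, |h w| ≤ K + 17 := by
    intro w
    rw [hh]
    dsimp only
    rcases le_total 16 ‖w - w.2 0 • e‖ with h1 | h1
    · rw [hB2 _ h1, zero_mul, abs_zero]
      linarith
    · have h2 : ‖w - w.2 0 • e + c (w.2 0) • e‖ ≤ 16 + 17 * ‖e‖ := by
        refine (norm_add_le _ _).trans (add_le_add h1 ?_)
        rw [norm_smul, Real.norm_eq_abs]
        exact mul_le_mul_of_nonneg_right (hc2 _) (norm_nonneg _)
      have h3 := hK _ (mem_closedBall_zero_iff.2 h2)
      rw [Real.norm_eq_abs] at h3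
      have h4 : |b (w - w.2 0 • e + c (w.2 0) • e) - c (w.2 0)| ≤ K + 17 :=
        (abs_sub _ _).trans (add_le_add h3 (hc2 _))
      rw [abs_mul, abs_of_nonneg (hB0 _).1]
      exact mul_le_of_le_one_left (abs_nonneg _) (hB0 _).2 |>.trans h4
  have hd : ∀ w, -1 < fderiv ℝ h w e := by
    intro w
    have h1 := re_line hs w e 0
    rw [zero_smul, add_zero] at h1
    have h2 : (fun t : ℝ => h (w + t • e)) = fun t : ℝ =>
        B (w - w.2 0 • e) * (b (w - w.2 0 • e + c (w.2 0 + t) • e) - c (w.2 0 + t)) := by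
      funext t
      have h3 : (w + t • e).2 0 = w.2 0 + t := by
        simp only [Prod.snd_add, Prod.smul_snd, Pi.add_apply, Pi.smul_apply, smul_eq_mul, he0,
          mul_one]
      have h4 : w + t • e - (w.2 0 + t) • e = w - w.2 0 • e := by
        rw [add_smul]
        abel
      rw [hh]
      dsimp only
      rw [h3, h4]
    have h5 : HasDerivAt (fun t : ℝ => c (w.2 0 + t)) (c' (w.2 0 + 0)) 0 :=
      (hcd (w.2 0 + 0)).comp_const_add (w.2 0) 0
    have h6 := (re_line hb (w - w.2 0 • e) e (c (w.2 0 + 0))).comp (0 : ℝ) h5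
    have h7 := (h6.sub h5).const_mul (B (w - w.2 0 • e))
    rw [h2] at h1
    rw [h1.unique h7]
    have a1 := hby (w - w.2 0 • e + c (w.2 0 + 0) • e)
    obtain ⟨a2, a3⟩ := hB0 (w - w.2 0 • e)
    obtain ⟨a4, a5⟩ := hc1 (w.2 0 + 0)
    have a6 : 0 ≤ B (w - w.2 0 • e) * c' (w.2 0 + 0) := mul_nonneg a2 a4
    have a7 : B (w - w.2 0 • e) * c' (w.2 0 + 0) ≤ 1 := mul_le_one₀ a3 a4 a5
    rcases a6.eq_or_lt with a8 | a8
    · have a9 : B (w - w.2 0 • e) *
          (fderiv ℝ b (w - w.2 0 • e + c (w.2 0 + 0) • e) e * c' (w.2 0 + 0) - c' (w.2 0 + 0)) =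
          B (w - w.2 0 • e) * c' (w.2 0 + 0) *
            (fderiv ℝ b (w - w.2 0 • e + c (w.2 0 + 0) • e) e - 1) := by ring
      rw [a9, ← a8]
      norm_num
    · nlinarith [mul_pos a8 a1]
  refine ⟨_, _, re_iso h hs e (K + 17) hM hd, fun z w hw => ?_⟩
  rw [mem_ball_zero_iff] at hw
  have h1 : |w.2 0| ≤ 15 :=
    ((norm_le_pi_norm w.2 0).trans (norm_snd_le w)).trans hw.le
  have h2 : ‖w - w.2 0 • e‖ ≤ 15 := by
    refine le_trans ?_ hw.le
    rw [he, Prod.norm_def]
    refine max_le ?_ ((pi_norm_le_iff_of_nonneg (norm_nonneg _)).2 fun i => ?_)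
    · simpa [ey] using norm_fst_le w
    · rcases eq_or_ne i 0 with rfl | hi
      · simp [ey]
      · simpa [ey, Pi.single_eq_of_ne hi] using (norm_le_pi_norm w.2 i).trans (norm_snd_le w)
  have h3 : h w = b w - w.2 0 := by
    rw [hh]
    dsimp only
    rw [hB1 _ h2, hc3 _ h1, sub_add_cancel, one_mul]
  show ((z, w) : Pt (k+1)) + (1 * h w) • ((0, e) : Pt (k+1)) = _
  rw [h3, he]
  refine Prod.ext (by simp) (Prod.ext (by simp [ey]) (funext fun i => ?_))
  rcases eq_or_ne i 0 with rfl | hi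
  · simp [ey]
  · simp [ey, Pi.single_eq_of_ne hi, Function.update_of_ne hi]

end Pool.Agent.MP_b80928_gt.D5
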