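import Pool.Agent.MP_b80928_gt.D5.Defs

set_option autoImplicit false

namespace Pool.Agent.MP_b80928_gt.D5

open Set Metric Filter Topology
open scoped ContDiff

theorem rob_row : ROB_s := by
  intro n F hF hloc E hE P0 L ch hconj hch hEF
  obtain ⟨ε, hε, hl⟩ := hloc
  have hsub : closedBall (0 : V n) 14 ⊆ ball 0 15 := closedBall_subset_ball (by norm_num)
  have hcont : ContinuousOn (fun z => fderiv ℝ ch z) (closedBall (0 : V n) 14) := fun z hz =>
    ((hch z (hsub hz)).1.continuousAt_fderiv (by simp)).continuousWithinAt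
  obtain ⟨C0, hC0⟩ := (isCompact_closedBall (0 : V n) 14).exists_bound_of_continuousOn hcont
  set Li : Pt n →L[ℝ] Pt n := (L.symm : Pt n →L[ℝ] Pt n) with hLi
  set K : ℝ := ‖Li‖ + 1 with hK
  set C : ℝ := |C0| + 1 with hC
  have hK0 : 0 < K := by positivity
  have hC1 : 1 ≤ C := by have := abs_nonneg C0; linarith
  have hLK : ∀ q, ‖Li q‖ ≤ K * ‖q‖ := fun q =>
    (Li.le_opNorm q).trans (mul_le_mul_of_nonneg_right (by linarith) (norm_nonneg _))
  have hchC : ∀ z ∈ closedBall (0 : V n) 14, ∀ w, ‖fderiv ℝ ch z w‖ ≤ C * ‖w‖ := fun z hz w =>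
    ((fderiv ℝ ch z).le_opNorm w).trans (mul_le_mul_of_nonneg_right
      ((hC0 z hz).trans (by have := le_abs_self C0; linarith)) (norm_nonneg _))
  have hKC : 0 < K * C := by positivity
  refine ⟨ε / (K * C), div_pos hε hKC, ?_⟩
  rintro E' hE' hE'e hclose ⟨U, hU, hEU, v, hv, htr⟩
  have hD : ∀ z ∈ closedBall (0 : V n) 14, ∀ G : Pt n → Pt n, Differentiable ℝ G → ∀ w,
      fderiv ℝ (fun y => Li (G (ch y) - P0)) z w = Li (fderiv ℝ G (ch z) (fderiv ℝ ch z w)) := by
    intro z hz G hG w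
    have h1 : HasFDerivAt (fun y => G (ch y)) ((fderiv ℝ G (ch z)).comp (fderiv ℝ ch z)) z :=
      (hG _).hasFDerivAt.comp z ((hch z (hsub hz)).1.differentiableAt (by simp)).hasFDerivAt
    have h2 : HasFDerivAt (fun y => Li (G (ch y) - P0))
        (Li.comp ((fderiv ℝ G (ch z)).comp (fderiv ℝ ch z))) z :=
      Li.hasFDerivAt.comp z (h1.sub_const P0)
    rw [h2.fderiv]; rfl
  have hFE : ∀ z ∈ ball (0 : V n) 15, F z = Li (E (ch z) - P0) := by
    intro z hz
    rw [hEF z hz, add_sub_cancel_left]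
    exact (L.symm_apply_apply _).symm
  have hback : ∀ q, P0 + L (Li (q - P0)) = q := by
    intro q
    have : L (Li (q - P0)) = q - P0 := L.apply_symm_apply _
    rw [this, add_sub_cancel]
  have hE'd : Differentiable ℝ E' := hE'.differentiable (by norm_num)
  have hEd : Differentiable ℝ E := hE.differentiable (by simp)
  have hUo : IsOpen {q | P0 + L q ∈ U} :=
    hU.preimage (continuous_const.add L.continuous)
  obtain ⟨z, hz, w, hw⟩ := hl (fun y => Li (E' (ch y) - P0)) (fun z hz => by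
      obtain ⟨g1, g2, g3, g4⟩ := hch z (hsub hz)
      refine ⟨Li.contDiff.contDiffAt.comp z
        ((hE'.contDiffAt.comp z (g1.of_le (by norm_cast))).sub contDiffAt_const), ?_, ?_, ?_⟩
      · rw [injective_iff_map_eq_zero]
        intro w hw
        rw [hD z hz E' hE'd] at hw
        have h1 : fderiv ℝ E' (ch z) (fderiv ℝ ch z w) = 0 :=
          L.symm.injective (hw.trans (map_zero _).symm)
        exact (injective_iff_map_eq_zero _).1 g4 w (hE'e.2 _ g2 _ (g3 w) h1)
      · rw [hFE z (hsub hz), ← map_sub, sub_sub_sub_cancel_right]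
        refine (hLK _).trans ((mul_le_mul_of_nonneg_left (hclose _ g2).1 hK0.le).trans ?_)
        have h1 : K * (ε / (K * C)) = ε / C := by field_simp
        rw [h1]
        exact div_le_self hε.le hC1
      · have h0 : F =ᶠ[𝓝 z] fun y => Li (E (ch y) - P0) :=
          (isOpen_ball.eventually_mem (hsub hz)).mono fun y hy => hFE y hy
        rw [h0.fderiv_eq]
        refine ContinuousLinearMap.opNorm_le_bound _ hε.le fun w => ?_
        rw [sub_apply, hD z hz E' hE'd, hD z hz E hEd, ← map_sub]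
        refine (hLK _).trans ((mul_le_mul_of_nonneg_left ((hclose _ g2).2 _ (g3 w)) hK0.le).trans ?_)
        calc K * (ε / (K * C) * ‖fderiv ℝ ch z w‖) ≤ K * (ε / (K * C) * (C * ‖w‖)) :=
              mul_le_mul_of_nonneg_left
                (mul_le_mul_of_nonneg_left (hchC z hz w) (div_pos hε hKC).le) hK0.le
          _ = ε * ‖w‖ := by field_simp)
    {q | P0 + L q ∈ U} hUo
    (fun z hz => by
      show P0 + L (Li (E' (ch z) - P0)) ∈ U
      rw [hback]
      exact hEU ⟨_, (hch z (hsub hz)).2.1, rfl⟩)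
    (fun q => L.symm (v (P0 + L q))) (hconj v U hU hv)
  obtain ⟨-, g2, g3, -⟩ := hch z (hsub hz)
  rw [hD z hz E' hE'd] at hw
  have h1 : Li (fderiv ℝ E' (ch z) (fderiv ℝ ch z w)) =
      L.symm (v (P0 + L (Li (E' (ch z) - P0)))) := hw
  rw [hback] at h1
  exact htr _ g2 _ (g3 w) (L.symm.injective h1)

end Pool.Agent.MP_b80928_gt.D5
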