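import Pool.Agent.MP_b80928_gt.D5.Defs

set_option autoImplicit false

namespace Pool.Agent.MP_b80928_gt.D5

open Set Metric Filter Topology
open scoped ContDiff

theorem tan_mem {n : ℕ} {w0 : V n} {r t : ℝ} (ht : 0 < t) (hr : 15 * t ≤ r) {z : V n}
    (hz : z ∈ ball (0 : V n) 15) : w0 + t • z ∈ ball w0 r := by
  rw [mem_ball_zero_iff] at hz
  rw [mem_ball, dist_eq_norm, add_sub_cancel_left, norm_smul, Real.norm_eq_abs, abs_of_pos ht]
  have := mul_lt_mul_of_pos_left hz ht
  linarith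

theorem tan_row : TAN_s := by
  intro n E0 hE κ w0 r t ht hr hκ z hz
  have haff : ContDiff ℝ ∞ (fun y : V n => w0 + t • y) :=
    contDiff_const.add (contDiff_id.const_smul t)
  have hsm : ContDiffAt ℝ ∞ (fun y : V n => κ (w0 + t • y)) z :=
    ContDiffAt.comp (g := κ) (f := fun y : V n => w0 + t • y) z (hκ _ (tan_mem ht hr hz)).1
      haff.contDiffAt
  have hd := (hsm.differentiableAt (by simp)).hasFDerivAt
  have hnb : ∀ᶠ y in 𝓝 z, y ∈ ball (0 : V n) 15 := isOpen_ball.mem_nhds hz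
  refine ⟨hsm, (hκ _ (tan_mem ht hr hz)).2.1, fun w => ?_, ?_⟩
  · have hl : HasDerivAt (fun u : ℝ => z + u • w) w 0 := by
      simpa using ((hasDerivAt_id (0 : ℝ)).smul_const w).const_add z
    have hz0 : z + (0 : ℝ) • w = z := by simp
    have hγ : HasDerivAt (fun u : ℝ => κ (w0 + t • (z + u • w)))
        (fderiv ℝ (fun y : V n => κ (w0 + t • y)) z w) 0 :=
      HasFDerivAt.comp_hasDerivAt_of_eq (l := fun y : V n => κ (w0 + t • y))
        (f := fun u : ℝ => z + u • w) (0 : ℝ) hd hl hz0.symm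
    have h1 := emb_dot_deriv hγ
    have h2 : (fun u : ℝ => dot (κ (w0 + t • (z + u • w))) (κ (w0 + t • (z + u • w))))
        =ᶠ[𝓝 0] fun _ => 1 := by
      have : ∀ᶠ u in 𝓝 (0 : ℝ), z + u • w ∈ ball (0 : V n) 15 :=
        hl.continuousAt.eventually (isOpen_ball.mem_nhds (by simpa using hz))
      exact this.mono fun u hu => (hκ _ (tan_mem ht hr hu)).2.1
    have h3 := h1.unique ((hasDerivAt_const (0 : ℝ) (1 : ℝ)).congr_of_eventuallyEq h2)
    rw [hz0] at h3
    linarith only [h3]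
  · have hEd := ((hE.differentiable (by simp)) (κ (w0 + t • z))).hasFDerivAt
    have h1 : HasFDerivAt (fun y : V n => (E0 (κ (w0 + t • y))).2)
        ((ContinuousLinearMap.snd ℝ ℝ (V n)).comp ((fderiv ℝ E0 (κ (w0 + t • z))).comp
          (fderiv ℝ (fun y : V n => κ (w0 + t • y)) z))) z :=
      (HasFDerivAt.comp (g := E0) (f := fun y : V n => κ (w0 + t • y)) z hEd hd).snd
    have h2 : HasFDerivAt (fun y : V n => w0 + t • y) (t • ContinuousLinearMap.id ℝ (V n)) z :=
      ((hasFDerivAt_id z).const_smul t).const_add w0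
    have h2' : HasFDerivAt (fun y : V n => (E0 (κ (w0 + t • y))).2)
        (t • ContinuousLinearMap.id ℝ (V n)) z :=
      h2.congr_of_eventuallyEq (hnb.mono fun y hy => (hκ _ (tan_mem ht hr hy)).2.2)
    have h3 := h1.unique h2'
    intro w w' h
    have a : (fderiv ℝ E0 (κ (w0 + t • z))
        (fderiv ℝ (fun y : V n => κ (w0 + t • y)) z w)).2 = t • w :=
      congrArg (fun L : V n →L[ℝ] V n => L w) h3
    have b : (fderiv ℝ E0 (κ (w0 + t • z))
        (fderiv ℝ (fun y : V n => κ (w0 + t • y)) z w')).2 = t • w' :=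
      congrArg (fun L : V n →L[ℝ] V n => L w') h3
    rw [h, b] at a
    exact (smul_right_injective (V n) ht.ne' a).symm

end Pool.Agent.MP_b80928_gt.D5
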