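import Pool.Agent.MP_b80928_gt.D5.Defs

/-! The twist: a rotation of the `(z, y₀)`-plane by an angle cut off in the radius. -/

set_option autoImplicit false

namespace Pool.Agent.MP_b80928_gt.D5

open Set Metric Filter Topology
open scoped ContDiff

/-- rotation of the `(z, y₀)`-plane -/
noncomputable def tw_rot {k : ℕ} (a : ℝ) (q : Pt (k+1)) : Pt (k+1) :=
  (q.1 * Real.cos a + q.2.2 0 * Real.sin a, q.2.1,
    Function.update q.2.2 0 (-q.1 * Real.sin a + q.2.2 0 * Real.cos a))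

/-- the angle -/
noncomputable def tw_ang {k : ℕ} (θ : ℝ → ℝ) (R τ : ℝ) (q : Pt (k+1)) : ℝ :=
  τ * θ (q.2.1 0) * Real.smoothTransition (2 * R ^ 2 + 1 - (q.1 ^ 2 + q.2.2 0 ^ 2))

theorem tw_rot_zero {k : ℕ} (q : Pt (k+1)) : tw_rot 0 q = q := by
  obtain ⟨z, x, y⟩ := q
  simp [tw_rot]

theorem tw_rot_inv {k : ℕ} (a : ℝ) (q : Pt (k+1)) : tw_rot (-a) (tw_rot a q) = q := by
  obtain ⟨z, x, y⟩ := q
  have h := Real.sin_sq_add_cos_sq a
  simp only [tw_rot, Real.cos_neg, Real.sin_neg, Function.update_self, Function.update_idem]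
  refine Prod.ext ?_ (Prod.ext rfl ?_)
  · show (z * Real.cos a + y 0 * Real.sin a) * Real.cos a +
      (-z * Real.sin a + y 0 * Real.cos a) * -Real.sin a = z
    linear_combination z * h
  · show Function.update y 0 (-(z * Real.cos a + y 0 * Real.sin a) * -Real.sin a +
      (-z * Real.sin a + y 0 * Real.cos a) * Real.cos a) = y
    have h2 : -(z * Real.cos a + y 0 * Real.sin a) * -Real.sin a +
        (-z * Real.sin a + y 0 * Real.cos a) * Real.cos a = y 0 := by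
      linear_combination y 0 * h
    rw [h2, Function.update_eq_self]

theorem tw_ang_rot {k : ℕ} (θ : ℝ → ℝ) (R τ a : ℝ) (q : Pt (k+1)) :
    tw_ang θ R τ (tw_rot a q) = tw_ang θ R τ q := by
  have h := Real.sin_sq_add_cos_sq a
  have h2 : (tw_rot a q).1 ^ 2 + (tw_rot a q).2.2 0 ^ 2 = q.1 ^ 2 + q.2.2 0 ^ 2 := by
    simp only [tw_rot, Function.update_self]
    linear_combination (q.1 ^ 2 + q.2.2 0 ^ 2) * h
  unfold tw_ang
  rw [h2]
  rfl

theorem tw_smooth {k : ℕ} {X : Type} [NormedAddCommGroup X] [NormedSpace ℝ X] {g : X → ℝ}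
    {f : X → Pt (k+1)} (hg : ContDiff ℝ ∞ g) (hf : ContDiff ℝ ∞ f) :
    ContDiff ℝ ∞ fun x => tw_rot (g x) (f x) := by
  have h1 : ContDiff ℝ ∞ fun x => (f x).1 := hf.fst
  have h2 : ContDiff ℝ ∞ fun x => (f x).2.1 := hf.snd.fst
  have h3 : ∀ i, ContDiff ℝ ∞ fun x => (f x).2.2 i := fun i => contDiff_pi.1 hf.snd.snd i
  have hc : ContDiff ℝ ∞ fun x => Real.cos (g x) := hg.cos
  have hs : ContDiff ℝ ∞ fun x => Real.sin (g x) := hg.sin
  refine ((h1.mul hc).add ((h3 0).mul hs)).prodMk (h2.prodMk (contDiff_pi.2 fun i => ?_))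
  by_cases h : i = 0
  · subst h
    simp only [Function.update_self]
    exact (h1.neg.mul hs).add ((h3 0).mul hc)
  · simp only [Function.update_of_ne h]
    exact h3 i

theorem tw_ang_smooth {k : ℕ} {θ : ℝ → ℝ} (hθ : ContDiff ℝ ∞ θ) (R : ℝ) :
    ContDiff ℝ ∞ fun x : ℝ × Pt (k+1) => tw_ang θ R x.1 x.2 := by
  have h1 : ContDiff ℝ ∞ fun x : ℝ × Pt (k+1) => x.2.1 := contDiff_snd.fst
  have h2 : ContDiff ℝ ∞ fun x : ℝ × Pt (k+1) => x.2.2.1 0 :=
    contDiff_pi.1 (contDiff_snd.snd.fst : ContDiff ℝ ∞ fun x : ℝ × Pt (k+1) => x.2.2.1) 0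
  have h3 : ContDiff ℝ ∞ fun x : ℝ × Pt (k+1) => x.2.2.2 0 :=
    contDiff_pi.1 (contDiff_snd.snd.snd : ContDiff ℝ ∞ fun x : ℝ × Pt (k+1) => x.2.2.2) 0
  exact (contDiff_fst.mul (hθ.comp h2)).mul
    (Real.smoothTransition.contDiff.comp (contDiff_const.sub ((h1.pow 2).add (h3.pow 2))))

theorem tw_rot_dist {k : ℕ} (a B : ℝ) (q : Pt (k+1)) (h1 : |q.1| ≤ B) (h2 : |q.2.2 0| ≤ B) :
    ‖tw_rot a q - q‖ ≤ 3 * B := by
  have hB : 0 ≤ B := (abs_nonneg _).trans h1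
  have key : ∀ u v : ℝ, |u| ≤ B → |v| ≤ 1 → |u * v| ≤ B := fun u v hu hv => by
    rw [abs_mul]
    calc |u| * |v| ≤ B * 1 := mul_le_mul hu hv (abs_nonneg _) hB
      _ = B := mul_one B
  have hc := Real.abs_cos_le_one a
  have hs := Real.abs_sin_le_one a
  have e1 := abs_le.1 (key _ _ h1 hc)
  have e2 := abs_le.1 (key _ _ h1 hs)
  have e3 := abs_le.1 (key _ _ h2 hc)
  have e4 := abs_le.1 (key _ _ h2 hs)
  have e5 := abs_le.1 h1
  have e6 := abs_le.1 h2
  rw [Prod.norm_def, Prod.norm_def]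
  refine max_le ?_ (max_le ?_ ?_)
  · show ‖q.1 * Real.cos a + q.2.2 0 * Real.sin a - q.1‖ ≤ 3 * B
    rw [Real.norm_eq_abs, abs_le]
    constructor <;> linarith only [e1.1, e1.2, e4.1, e4.2, e5.1, e5.2]
  · show ‖q.2.1 - q.2.1‖ ≤ 3 * B
    rw [sub_self, norm_zero]
    positivity
  · show ‖Function.update q.2.2 0 (-q.1 * Real.sin a + q.2.2 0 * Real.cos a) - q.2.2‖ ≤ 3 * B
    refine (pi_norm_le_iff_of_nonneg (by positivity)).2 fun i => ?_
    rw [Pi.sub_apply]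
    by_cases h : i = 0
    · subst h
      rw [Function.update_self, Real.norm_eq_abs, abs_le]
      constructor <;> linarith only [e2.1, e2.2, e3.1, e3.2, e6.1, e6.2]
    · rw [Function.update_of_ne h, sub_self, norm_zero]
      positivity

theorem tw_row (hI : INV_s) : TW_s := by
  intro k θ hθ R
  have hA := tw_ang_smooth (k := k) hθ R
  refine ⟨fun τ q => tw_rot (tw_ang θ R τ q) q, 3 * (2 * R ^ 2 + 2),
    ⟨tw_smooth hA contDiff_snd, fun q => ?_, fun τ _ => ⟨?_, fun q => ?_⟩⟩, fun q h1 h2 => ?_⟩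
  · have h0 : tw_ang θ R 0 q = 0 := by simp [tw_ang]
    show tw_rot (tw_ang θ R 0 q) q = q
    rw [h0, tw_rot_zero]
  · have hτ : ContDiff ℝ ∞ fun q : Pt (k+1) => tw_ang θ R τ q :=
      hA.comp (contDiff_const.prodMk contDiff_id)
    refine hI (k+1) _ (fun q => tw_rot (-tw_ang θ R τ q) q) (tw_smooth hτ contDiff_id)
      (tw_smooth hτ.neg contDiff_id) fun q => ?_
    show tw_rot (-tw_ang θ R τ (tw_rot (tw_ang θ R τ q) q)) (tw_rot (tw_ang θ R τ q) q) = q
    rw [tw_ang_rot, tw_rot_inv]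
  · show ‖tw_rot (tw_ang θ R τ q) q - q‖ ≤ 3 * (2 * R ^ 2 + 2)
    by_cases h : 2 * R ^ 2 + 1 ≤ q.1 ^ 2 + q.2.2 0 ^ 2
    · have h0 : tw_ang θ R τ q = 0 := by
        unfold tw_ang
        rw [Real.smoothTransition.zero_of_nonpos (by linarith only [h]), mul_zero]
      rw [h0, tw_rot_zero, sub_self, norm_zero]
      positivity
    · have h' := not_le.1 h
      refine tw_rot_dist _ _ q ?_ ?_
      · rw [abs_le]
        constructor <;>
          nlinarith only [h', sq_nonneg (q.2.2 0), sq_nonneg (q.1 - 1), sq_nonneg (q.1 + 1),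
            sq_nonneg R]
      · rw [abs_le]
        constructor <;>
          nlinarith only [h', sq_nonneg q.1, sq_nonneg (q.2.2 0 - 1), sq_nonneg (q.2.2 0 + 1),
            sq_nonneg R]
  · have g1 : q.1 ^ 2 ≤ R ^ 2 := sq_le_sq' (abs_le.1 h1).1 (abs_le.1 h1).2
    have g2 : q.2.2 0 ^ 2 ≤ R ^ 2 := sq_le_sq' (abs_le.1 h2).1 (abs_le.1 h2).2
    have h0 : tw_ang θ R 1 q = θ (q.2.1 0) := by
      unfold tw_ang
      rw [Real.smoothTransition.one_of_one_le (by linarith only [g1, g2]), mul_one, one_mul]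
    show tw_rot (tw_ang θ R 1 q) q = _
    rw [h0]
    rfl

end Pool.Agent.MP_b80928_gt.D5
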