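import Pool.Agent.MP_b80928_gt.D5.BAS
import Pool.Agent.MP_b80928_gt.D5.GEO
import Pool.Agent.MP_b80928_gt.D5.LOC
import Pool.Agent.MP_b80928_gt.D5.ROB
import Pool.Agent.MP_b80928_gt.D5.BY
import Pool.Agent.MP_b80928_gt.D5.PLUG
import Pool.Agent.MP_b80928_gt.D5.RE
import Pool.Agent.MP_b80928_gt.D5.TW
import Pool.Agent.MP_b80928_gt.D5.IFT
import Pool.Agent.MP_b80928_gt.D5.MAXP
import Pool.Agent.MP_b80928_gt.D5.TAN
import Pool.Agent.MP_b80928_gt.D5.AFF
import Pool.Agent.MP_b80928_gt.D5.CNJ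
import Pool.Agent.MP_b80928_gt.D5.CUT
import Pool.Agent.MP_b80928_gt.D5.FLAT

set_option autoImplicit false

namespace Pool.Agent.MP_b80928_gt.D5

theorem top : TOP_s :=
  top_row loc_row
    (geo_row comp_row cji_row (plug_row comp_row sh_row cut_row re_row (tw_row inv_row) by_row)
      tan_row (flat_row maxp_row ift_row cut_row sh_row) aff_row cnj_row)
    rob_row

end Pool.Agent.MP_b80928_gt.D5
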