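import Pool.Agent.MP_b80928_gt.D5.Main
import Pool.Agent.MP_b80928_gt.D5.Hyp

set_option autoImplicit false

namespace Pool.Agent.MP_b80928_gt.D5

open scoped ContDiff

theorem topH (m : ℕ) {f : Pt (m+2) → ℝ} (hf : Hyp f) {E0 : Pt (m+2) → Pt (m+2)}
    (hemb : HypEmb f ∞ E0) (δ : ℝ) (hδ : 0 < δ) :
    ∃ P : ℝ → Pt (m+2) → Pt (m+2), Iso P δ ∧ ∃ ε > 0, ∀ E' : Pt (m+2) → Pt (m+2),
      HypEmb f 2 E' → C1Near f ε E' (P 1 ∘ E0) → ¬ConvexIm alpha f E' :=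
  hyp_top loc_row cut_row sh_row (plug_row comp_row sh_row cut_row re_row (tw_row inv_row) by_row)
    aff_row cnj_row cji_row comp_row m hf hemb δ hδ

end Pool.Agent.MP_b80928_gt.D5
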